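import Pool.Agent.V1191.NS.Hel

/-!
The bound of the production term.
-/

open MeasureTheory Set Filter Topology
open scoped ContDiff ENNReal

namespace Pool.Agent.V1191.NS

open H459R3.NS Pool.Agent.W12.MD.R0

/-- the square of the norm of order `1/2` -/
noncomputable def XX (u : Fin 3 → V → ℝ) : ℝ := ∑ i, Q kn (u i)

/-- the square of the norm of order `3/2` -/
noncomputable def YY (u : Fin 3 → V → ℝ) : ℝ := ∑ i, Q (fun k => kn k * kk k) (u i)

/-- the square of the norm of order `1` -/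
noncomputable def ZZ (u : Fin 3 → V → ℝ) : ℝ := ∑ i, Q kk (u i)

theorem XX_nonneg (u : Fin 3 → V → ℝ) : 0 ≤ XX u :=
  Finset.sum_nonneg fun _ _ => Q_nonneg kn_nonneg _

theorem k3_nonneg (k : K3) : 0 ≤ kn k * kk k := mul_nonneg (kn_nonneg k) (kk_nonneg k)

theorem pol_k3 : Pol (fun k => kn k * kk k) := pol_kn.mul pol_kk

theorem YY_nonneg (u : Fin 3 → V → ℝ) : 0 ≤ YY u :=
  Finset.sum_nonneg fun _ _ => Q_nonneg k3_nonneg _

theorem ZZ_nonneg (u : Fin 3 → V → ℝ) : 0 ≤ ZZ u :=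
  Finset.sum_nonneg fun _ _ => Q_nonneg kk_nonneg _

theorem Q_interp {z : V → ℝ} (hz : SP z) :
    Q kk z ≤ Real.sqrt (Q kn z) * Real.sqrt (Q (fun k => kn k * kk k) z) := by
  have h := tsum_cs kn_nonneg (fun k => norm_nonneg (fr z k))
    (fun k => mul_nonneg (kn_nonneg k) (norm_nonneg (fr z k))) (summable_Q pol_kn hz)
    (by
      refine (summable_Q pol_k3 hz).congr fun k => ?_
      rw [mul_pow, kn_sq]
      ring)
  have e1 : Q kk z = ∑' k, kn k * (‖fr z k‖ * (kn k * ‖fr z k‖)) := by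
    unfold Q
    refine tsum_congr fun k => ?_
    rw [← kn_sq]
    ring
  have e2 : Q (fun k => kn k * kk k) z = ∑' k, kn k * (kn k * ‖fr z k‖) ^ 2 := by
    unfold Q
    refine tsum_congr fun k => ?_
    rw [mul_pow, kn_sq]
    ring
  rw [e1, e2]
  exact h.2

theorem ZZ_le {u : Fin 3 → V → ℝ} (hu : ∀ i, SP (u i)) :
    ZZ u ≤ Real.sqrt (XX u) * Real.sqrt (YY u) := by
  unfold ZZ XX YY
  refine (Finset.sum_le_sum fun i _ => Q_interp (hu i)).trans ?_
  exact Real.sum_sqrt_mul_sqrt_le _ (fun i => Q_nonneg kn_nonneg _) (fun i => Q_nonneg k3_nonneg _)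

variable {A B : ℝ}

theorem Q_sy {z : V → ℝ} (hz : SP z) (A B : ℝ) :
    Q (fun k => sy A B k * kk k) z = 2 * Real.pi * A * Q (fun k => kn k * kk k) z
      + B * Q kk z := by
  unfold Q
  rw [← tsum_mul_left, ← tsum_mul_left, ← Summable.tsum_add]
  · refine tsum_congr fun k => ?_
    unfold sy
    ring
  · exact (summable_Q pol_k3 hz).mul_left _
  · exact (summable_Q pol_kk hz).mul_left _

theorem Q_pd_le {m : K3 → ℝ} (hm : Pol m) (hm0 : ∀ k, 0 ≤ m k) {z : V → ℝ} (hz : SP z)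
    (i : Fin 3) : Q m (pd i z) ≤ 4 * Real.pi ^ 2 * Q (fun k => m k * kk k) z := by
  rw [← sum_Q_pd hm hz]
  exact Finset.single_le_sum (f := fun i => Q m (pd i z)) (fun i _ => Q_nonneg hm0 _)
    (Finset.mem_univ i)

theorem Q_Lam {m : K3 → ℝ} {z : V → ℝ} (hz : SP z) :
    Q m (Lam z) = Q (fun k => m k * kk k) z := by
  unfold Q
  refine tsum_congr fun k => ?_
  rw [fr_Lam hz, norm_mul, Complex.norm_real, Real.norm_of_nonneg (kn_nonneg k), mul_pow, kn_sq]
  ring

/-- the bound -/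
noncomputable def EE (A B : ℝ) (u : Fin 3 → V → ℝ) : ℝ :=
  2 * Real.pi * A * YY u + B * (Real.sqrt (XX u) * Real.sqrt (YY u))

theorem sy_le_EE (hA : 0 ≤ A) (hB : 0 ≤ B) {u : Fin 3 → V → ℝ} (hu : ∀ i, SP (u i)) (i : Fin 3) :
    Q (fun k => sy A B k * kk k) (u i) ≤ EE A B u := by
  have hpi := Real.pi_pos
  rw [Q_sy (hu i)]
  unfold EE
  have h1 : Q (fun k => kn k * kk k) (u i) ≤ YY u :=
    Finset.single_le_sum (f := fun i => Q (fun k => kn k * kk k) (u i))
      (fun i _ => Q_nonneg k3_nonneg _) (Finset.mem_univ i)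
  have h2 : Q kk (u i) ≤ ZZ u :=
    Finset.single_le_sum (f := fun i => Q kk (u i))
      (fun i _ => Q_nonneg kk_nonneg _) (Finset.mem_univ i)
  have h3 := ZZ_le hu
  have h4 : 2 * Real.pi * A * Q (fun k => kn k * kk k) (u i) ≤ 2 * Real.pi * A * YY u :=
    mul_le_mul_of_nonneg_left h1 (by positivity)
  have h5 : B * Q kk (u i) ≤ B * (Real.sqrt (XX u) * Real.sqrt (YY u)) :=
    mul_le_mul_of_nonneg_left (h2.trans h3) hB
  linarith

variable {s : ℝ} {u g f : Fin 3 → V → ℝ}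

theorem Dec.sy_f (h : Dec s u g f) (hA : 0 ≤ A) (hB : 0 ≤ B) (i : Fin 3) :
    Q (fun k => sy A B k * kk k) (f i) ≤ EE A B u := by
  have hpi := Real.pi_pos
  have h1 : Q (fun k => sy A B k * kk k) (f i) ≤ ∑ i, Q (fun k => sy A B k * kk k) (f i) :=
    Finset.single_le_sum (f := fun i => Q (fun k => sy A B k * kk k) (f i))
      (fun i _ => Q_nonneg (fun k => mul_nonneg (by
        unfold sy
        have := kn_nonneg k
        positivity) (kk_nonneg k)) _) (Finset.mem_univ i)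
  refine h1.trans ?_
  have h2 := h.Q_f_le (m := fun k => sy A B k * kk k) ((pol_sy A B).mul pol_kk)
    (fun k => mul_nonneg (by
        unfold sy
        have := kn_nonneg k
        positivity) (kk_nonneg k)) (by simp [kk])
  refine h2.trans ?_
  simp_rw [Q_sy (h.hu _), Finset.sum_add_distrib, ← Finset.mul_sum]
  unfold EE
  have h3 := mul_le_mul_of_nonneg_left (ZZ_le h.hu) hB
  unfold ZZ at h3
  unfold YY at *
  linarith

theorem EE_nonneg (hA : 0 ≤ A) (hB : 0 ≤ B) (u : Fin 3 → V → ℝ) : 0 ≤ EE A B u := by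
  have h1 := YY_nonneg u
  have hpi := Real.pi_pos
  unfold EE
  positivity

/-- a local term -/
theorem I3_le {w h h' : V → ℝ} {E : ℝ} (hw : SP w) (hA : 0 ≤ A) (hB : 0 < B) (hb : Bdd A B w)
    (hh : SP h) (hh' : SP h') (h1 : Q (sy A B) h ≤ E) (h2 : Q (sy A B) h' ≤ E) (hE : 0 ≤ E) :
    |I3 h h' w| ≤ E := by
  have h3 := local_bound hw hA hB hb hh hh'
  have e : I3 h h' w = ∫ x in cube, w x * h x * h' x := by
    unfold I3
    congr 1
    funext x
    ring
  rw [e]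
  refine h3.trans ?_
  calc _ ≤ Real.sqrt E * Real.sqrt E := by gcongr
    _ = E := Real.mul_self_sqrt hE

theorem abs_sum3_le {a : Fin 3 → ℝ} {E : ℝ} (h : ∀ i, |a i| ≤ E) : |∑ i, a i| ≤ 3 * E := by
  refine (Finset.abs_sum_le_sum_abs _ _).trans ?_
  refine (Finset.sum_le_sum fun i _ => h i).trans (le_of_eq ?_)
  simp

theorem Dec.abs_NN_le (h : Dec s u g f) (hA : 0 ≤ A) (hB : 0 < B) (hb : ∀ i, Bdd A B (g i)) :
    |NN u g| ≤ 300 * EE A B u := by
  have hpi := Real.pi_pos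
  obtain ⟨c, hc0, hc⟩ := exists_kap
  have hu := h.hu
  have hE := EE_nonneg hA hB.le u
  set E := EE A B u with hEdef
  have hs0 : ∀ k, 0 ≤ sy A B k := fun k => (sy_pos hA hB k).le
  have qu : ∀ i j, Q (sy A B) (pd j (u i)) ≤ 4 * Real.pi ^ 2 * E := fun i j =>
    (Q_pd_le (pol_sy A B) hs0 (hu i) j).trans
      (mul_le_mul_of_nonneg_left (sy_le_EE hA hB.le hu i) (by positivity))
  have qf : ∀ i j, Q (sy A B) (pd j (f i)) ≤ 4 * Real.pi ^ 2 * E := fun i j =>
    (Q_pd_le (pol_sy A B) hs0 (h.hf i) j).trans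
      (mul_le_mul_of_nonneg_left (h.sy_f hA hB.le i) (by positivity))
  have h1 : (1 : ℝ) ≤ 4 * Real.pi ^ 2 := by nlinarith [Real.pi_gt_three]
  have ql : ∀ i, Q (sy A B) (Lam (u i)) ≤ 4 * Real.pi ^ 2 * E := fun i => by
    rw [Q_Lam (hu i)]
    refine (sy_le_EE hA hB.le hu i).trans ?_
    nlinarith
  have hE4 : 0 ≤ 4 * Real.pi ^ 2 * E := by positivity
  have bL1 : |L1 u f g| ≤ 18 * (4 * Real.pi ^ 2 * E) := by
    have : ∀ i, |∑ j, (I3 (pd (i + 1) (u j)) (pd j (f (i + 2))) (g i)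
        - I3 (pd (i + 2) (u j)) (pd j (f (i + 1))) (g i))| ≤ 3 * (2 * (4 * Real.pi ^ 2 * E)) := by
      intro i
      refine abs_sum3_le fun j => ?_
      refine (abs_sub _ _).trans ?_
      have a1 := I3_le (h.hg i) hA hB (hb i) ((hu j).pd (i + 1)) ((h.hf (i + 2)).pd j)
        (qu j (i + 1)) (qf (i + 2) j) hE4
      have a2 := I3_le (h.hg i) hA hB (hb i) ((hu j).pd (i + 2)) ((h.hf (i + 1)).pd j)
        (qu j (i + 2)) (qf (i + 1) j) hE4
      linarith
    refine (abs_sum3_le this).trans (le_of_eq ?_)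
    ring
  have bL2 : |L2 u g| ≤ 9 * (4 * Real.pi ^ 2 * E) := by
    have : ∀ i, |∑ j, I3 (Lam (u j)) (pd j (u i)) (g i)| ≤ 3 * (4 * Real.pi ^ 2 * E) := fun i =>
      abs_sum3_le fun j => I3_le (h.hg i) hA hB (hb i) (sp_Lam (hu j)) ((hu i).pd j) (ql j)
        (qu i j) hE4
    refine (abs_sum3_le this).trans (le_of_eq ?_)
    ring
  have bJ1 : ∀ i j, |∫ y, Jr (u j) (pd j (u i)) (g i) y ∂kap| ≤ 4 * Real.pi * c * E := by
    intro i j
    refine (abs_int_Jr_le hc0 hc (hu j) ((hu i).pd j) (h.hg i) (hb i)).trans ?_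
    have y1 : Q (fun k => kn k * kk k) (u j) ≤ YY u :=
      Finset.single_le_sum (f := fun i => Q (fun k => kn k * kk k) (u i))
        (fun i _ => Q_nonneg k3_nonneg _) (Finset.mem_univ j)
    have x1 : Q kn (u j) ≤ XX u :=
      Finset.single_le_sum (f := fun i => Q kn (u i))
        (fun i _ => Q_nonneg kn_nonneg _) (Finset.mem_univ j)
    have y2 : Q kn (pd j (u i)) ≤ 4 * Real.pi ^ 2 * YY u := by
      refine (Q_pd_le pol_kn kn_nonneg (hu i) j).trans ?_
      refine mul_le_mul_of_nonneg_left ?_ (by positivity)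
      exact Finset.single_le_sum (f := fun i => Q (fun k => kn k * kk k) (u i))
        (fun i _ => Q_nonneg k3_nonneg _) (Finset.mem_univ i)
    have hY := YY_nonneg u
    have hX := XX_nonneg u
    have z1 : Real.sqrt (Q kn (pd j (u i))) ≤ 2 * Real.pi * Real.sqrt (YY u) := by
      refine (Real.sqrt_le_sqrt y2).trans (le_of_eq ?_)
      rw [show 4 * Real.pi ^ 2 * YY u = (2 * Real.pi) ^ 2 * YY u by ring,
        Real.sqrt_mul (by positivity), Real.sqrt_sq (by positivity)]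
    have z2 : Real.sqrt (4 * Real.pi ^ 2 * A ^ 2 * Q (fun k => kn k * kk k) (u j)
        + B ^ 2 * Q kn (u j)) ≤ 2 * Real.pi * A * Real.sqrt (YY u) + B * Real.sqrt (XX u) := by
      refine Real.sqrt_le_iff.2 ⟨by positivity, ?_⟩
      have s1 := Real.sq_sqrt hY
      have s2 := Real.sq_sqrt hX
      have t1 : 4 * Real.pi ^ 2 * A ^ 2 * Q (fun k => kn k * kk k) (u j)
          ≤ 4 * Real.pi ^ 2 * A ^ 2 * Real.sqrt (YY u) ^ 2 := by
        rw [s1]
        exact mul_le_mul_of_nonneg_left y1 (by positivity)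
      have t2 : B ^ 2 * Q kn (u j) ≤ B ^ 2 * Real.sqrt (XX u) ^ 2 := by
        rw [s2]
        exact mul_le_mul_of_nonneg_left x1 (by positivity)
      have t3 : 0 ≤ 2 * (2 * Real.pi * A * Real.sqrt (YY u)) * (B * Real.sqrt (XX u)) := by
        positivity
      nlinarith
    calc 2 * c * (Real.sqrt (4 * Real.pi ^ 2 * A ^ 2 * Q (fun k => kn k * kk k) (u j)
        + B ^ 2 * Q kn (u j)) * Real.sqrt (Q kn (pd j (u i))))
        ≤ 2 * c * ((2 * Real.pi * A * Real.sqrt (YY u) + B * Real.sqrt (XX u))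
          * (2 * Real.pi * Real.sqrt (YY u))) := by gcongr
      _ = 4 * Real.pi * c * (2 * Real.pi * A * (Real.sqrt (YY u) * Real.sqrt (YY u))
          + B * (Real.sqrt (XX u) * Real.sqrt (YY u))) := by ring
      _ = 4 * Real.pi * c * E := by rw [Real.mul_self_sqrt hY, hEdef]; unfold EE; ring
  have bJ : |JJ u g| ≤ 9 * (4 * Real.pi * c * E) := by
    have : ∀ i, |∑ j, ∫ y, Jr (u j) (pd j (u i)) (g i) y ∂kap| ≤ 3 * (4 * Real.pi * c * E) :=
      fun i => abs_sum3_le fun j => bJ1 i j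
    refine (abs_sum3_le this).trans (le_of_eq ?_)
    ring
  have h2 := h.two_N hc0 hc
  have hs1 : |s| = 1 := by
    have := h.s2
    rw [← abs_mul_abs_self] at this
    nlinarith [abs_nonneg s]
  have t1 : |(-(s / (2 * Real.pi)) * L1 u f g)| ≤ 36 * Real.pi * E := by
    rw [abs_mul, abs_neg, abs_div, hs1, abs_of_pos (by positivity : 0 < 2 * Real.pi)]
    calc 1 / (2 * Real.pi) * |L1 u f g| ≤ 1 / (2 * Real.pi) * (18 * (4 * Real.pi ^ 2 * E)) := by
          gcongr
      _ = 36 * Real.pi * E := by field_simp; ring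
  have t2 : |1 / c * JJ u g| ≤ 36 * Real.pi * E := by
    rw [abs_mul, abs_of_pos (by positivity : 0 < 1 / c)]
    calc 1 / c * |JJ u g| ≤ 1 / c * (9 * (4 * Real.pi * c * E)) := by gcongr
      _ = 36 * Real.pi * E := by field_simp; ring
  have t3 : |2 * NN u g| ≤ 36 * Real.pi * E + 36 * Real.pi ^ 2 * E + 36 * Real.pi * E := by
    rw [h2]
    refine (abs_add_le _ _).trans ?_
    have := abs_sub (-(s / (2 * Real.pi)) * L1 u f g) (L2 u g)
    have e4 : 9 * (4 * Real.pi ^ 2 * E) = 36 * Real.pi ^ 2 * E := by ring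
    linarith
  rw [abs_mul, abs_two] at t3
  have hp1 := Real.pi_lt_d2
  have hp2 : 36 * Real.pi + 18 * Real.pi ^ 2 ≤ 300 := by nlinarith
  have t4 : |NN u g| ≤ (36 * Real.pi + 18 * Real.pi ^ 2) * E := by linarith
  exact t4.trans (mul_le_mul_of_nonneg_right hp2 hE)

end Pool.Agent.V1191.NS
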