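import Pool.Agent.V1191.NS.Dif2

/-!
Vector identities.
-/

open MeasureTheory Set Filter Topology
open scoped ContDiff ENNReal

namespace Pool.Agent.V1191.NS

open H459R3.NS Pool.Agent.W12.MD.R0

theorem spsub {f g : V → ℝ} (hf : SP f) (hg : SP g) : SP (fun x => f x - g x) where
  smooth := hf.smooth.sub hg.smooth
  per := fun i x => by simp only [hf.per i x, hg.per i x]

theorem spconst (c : ℝ) : SP (fun _ : V => c) := ⟨contDiff_const, fun _ _ => rfl⟩

theorem pdadd {f g : V → ℝ} (hf : SP f) (hg : SP g) (j : Fin 3) :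
    pd j (fun x => f x + g x) = fun x => pd j f x + pd j g x := by
  funext x
  have h : HasFDerivAt (fun y => f y + g y) _ x := (hf.diff x).hasFDerivAt.add (hg.diff x).hasFDerivAt
  unfold pd
  rw [h.fderiv]
  rfl

theorem pdsub {f g : V → ℝ} (hf : SP f) (hg : SP g) (j : Fin 3) :
    pd j (fun x => f x - g x) = fun x => pd j f x - pd j g x := by
  funext x
  have h : HasFDerivAt (fun y => f y - g y) _ x := (hf.diff x).hasFDerivAt.sub (hg.diff x).hasFDerivAt
  unfold pd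
  rw [h.fderiv]
  rfl

theorem pdcmul {f : V → ℝ} (hf : SP f) (c : ℝ) (j : Fin 3) :
    pd j (fun x => c * f x) = fun x => c * pd j f x := by
  funext x
  have h : HasFDerivAt (fun y => c * f y) _ x := (hf.diff x).hasFDerivAt.const_mul c
  unfold pd
  rw [h.fderiv]
  rfl

/-- the trilinear form -/
noncomputable def I3 (a b c : V → ℝ) : ℝ := ∫ x in cube, a x * b x * c x

theorem I3_swap (a b c : V → ℝ) : I3 a b c = I3 a c b := by
  unfold I3
  congr 1
  funext x
  ring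

theorem I3_ibp {a b c : V → ℝ} (ha : SP a) (hb : SP b) (hc : SP c) (j : Fin 3) :
    I3 a b (pd j c) = -I3 (pd j a) b c - I3 a (pd j b) c := by
  have h := ibp hc (ha.mul hb) j
  have e1 : I3 a b (pd j c) = ∫ x in cube, pd j c x * (a x * b x) := by
    unfold I3
    congr 1
    funext x
    ring
  rw [e1, h]
  unfold I3
  have i1 : IntegrableOn (fun x => pd j a x * b x * c x) cube := (((ha.pd j).mul hb).mul hc).int
  have i2 : IntegrableOn (fun x => a x * pd j b x * c x) cube := ((ha.mul (hb.pd j)).mul hc).int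
  have h3 : (∫ x in cube, c x * pd j (fun x => a x * b x) x)
      = (∫ x in cube, pd j a x * b x * c x) + ∫ x in cube, a x * pd j b x * c x := by
    rw [← integral_add i1 i2]
    congr 1
    funext x
    rw [pd_mul ha hb]
    ring
  rw [h3]
  ring

theorem I3_add2 {a b b' c : V → ℝ} (ha : SP a) (hb : SP b) (hb' : SP b') (hc : SP c) :
    I3 a (fun x => b x + b' x) c = I3 a b c + I3 a b' c := by
  unfold I3
  rw [← integral_add ((ha.mul hb).mul hc).int ((ha.mul hb').mul hc).int]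
  congr 1
  funext x
  ring

theorem I3_sub2 {a b b' c : V → ℝ} (ha : SP a) (hb : SP b) (hb' : SP b') (hc : SP c) :
    I3 a (fun x => b x - b' x) c = I3 a b c - I3 a b' c := by
  unfold I3
  rw [← integral_sub ((ha.mul hb).mul hc).int ((ha.mul hb').mul hc).int]
  congr 1
  funext x
  ring

theorem I3_add3 {a b c c' : V → ℝ} (ha : SP a) (hb : SP b) (hc : SP c) (hc' : SP c') :
    I3 a b (fun x => c x + c' x) = I3 a b c + I3 a b c' := by
  rw [I3_swap, I3_add2 ha hc hc' hb, I3_swap a c, I3_swap a c']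

theorem I3_sub3 {a b c c' : V → ℝ} (ha : SP a) (hb : SP b) (hc : SP c) (hc' : SP c') :
    I3 a b (fun x => c x - c' x) = I3 a b c - I3 a b c' := by
  rw [I3_swap, I3_sub2 ha hc hc' hb, I3_swap a c, I3_swap a c']

theorem I3_cmul3 (a b c : V → ℝ) (r : ℝ) : I3 a b (fun x => r * c x) = r * I3 a b c := by
  unfold I3
  rw [← integral_const_mul]
  congr 1
  funext x
  ring

/-- transport by a field without divergence -/
theorem tr3 {U : Fin 3 → V → ℝ} (hU : ∀ j, SP (U j)) (hdiv : ∀ x, ∑ i, pd i (U i) x = 0)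
    {a b : V → ℝ} (ha : SP a) (hb : SP b) :
    ∑ j, I3 (U j) a (pd j b) = -∑ j, I3 (U j) (pd j a) b := by
  have h1 : ∀ j ∈ (Finset.univ : Finset (Fin 3)), I3 (U j) a (pd j b)
      = -I3 (pd j (U j)) a b - I3 (U j) (pd j a) b := fun j _ => I3_ibp (hU j) ha hb j
  rw [Finset.sum_congr rfl h1, Finset.sum_sub_distrib, Finset.sum_neg_distrib]
  have h2 : ∑ j, I3 (pd j (U j)) a b = 0 := by
    unfold I3
    rw [← integral_finsetSum _ fun j _ => ((((hU j).pd j).mul ha).mul hb).int]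
    simp_rw [← Finset.sum_mul, hdiv]
    simp
  rw [h2]
  ring

/-- the curl -/
noncomputable def crl (a : Fin 3 → V → ℝ) (i : Fin 3) (x : V) : ℝ :=
  pd (i + 1) (a (i + 2)) x - pd (i + 2) (a (i + 1)) x

theorem sp_crl {a : Fin 3 → V → ℝ} (ha : ∀ i, SP (a i)) (i : Fin 3) : SP (crl a i) :=
  spsub ((ha _).pd _) ((ha _).pd _)

theorem pd_crl {a : Fin 3 → V → ℝ} (ha : ∀ i, SP (a i)) (i j : Fin 3) :
    pd j (crl a i) = crl (fun m => pd j (a m)) i := by
  unfold crl
  rw [pdsub ((ha _).pd _) ((ha _).pd _), pd_comm (ha _) j, pd_comm (ha _) j]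

theorem I3_crl {φ : V → ℝ} {a b : Fin 3 → V → ℝ} (hφ : SP φ) (ha : ∀ i, SP (a i))
    (hb : ∀ i, SP (b i)) : ∑ i, I3 φ (a i) (crl b i) = ∑ i, I3 φ (crl a i) (b i)
      + ∑ i, (I3 (pd (i + 1) φ) (a (i + 2)) (b i) - I3 (pd (i + 2) φ) (a (i + 1)) (b i)) := by
  have e1 : ∀ i, I3 φ (a i) (crl b i)
      = I3 φ (a i) (pd (i + 1) (b (i + 2))) - I3 φ (a i) (pd (i + 2) (b (i + 1))) := fun i =>
    I3_sub3 hφ (ha i) ((hb _).pd _) ((hb _).pd _)
  have e2 : ∀ i, I3 φ (crl a i) (b i)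
      = I3 φ (pd (i + 1) (a (i + 2))) (b i) - I3 φ (pd (i + 2) (a (i + 1))) (b i) := fun i =>
    I3_sub2 hφ ((ha _).pd _) ((ha _).pd _) (hb i)
  simp_rw [e1, e2, I3_ibp hφ (ha _) (hb _)]
  simp only [Fin.sum_univ_three]
  have f1 : (0 : Fin 3) + 1 = 1 := rfl
  have f2 : (0 : Fin 3) + 2 = 2 := rfl
  have f3 : (1 : Fin 3) + 1 = 2 := rfl
  have f4 : (1 : Fin 3) + 2 = 0 := rfl
  have f5 : (2 : Fin 3) + 1 = 0 := rfl
  have f6 : (2 : Fin 3) + 2 = 1 := rfl
  rw [f1, f2, f3, f4, f5, f6]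
  ring

theorem div_pd {u : Fin 3 → V → ℝ} (hu : ∀ i, SP (u i)) (hdiv : ∀ x, ∑ i, pd i (u i) x = 0)
    (m : Fin 3) (x : V) : ∑ i, pd i (pd m (u i)) x = 0 := by
  have e1 : (fun y => ∑ i, pd i (u i) y) = fun _ => 0 := funext hdiv
  simp_rw [fun i => pd_comm (hu i) i m]
  rw [← pd_sum (fun i _ => (hu i).pd i) m x, e1]
  unfold pd
  simp

/-- the first local term -/
noncomputable def L1 (u f g : Fin 3 → V → ℝ) : ℝ :=
  ∑ i, ∑ j, (I3 (pd (i + 1) (u j)) (pd j (f (i + 2))) (g i)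
    - I3 (pd (i + 2) (u j)) (pd j (f (i + 1))) (g i))

theorem twist {u f g : Fin 3 → V → ℝ} (hu : ∀ i, SP (u i)) (hf : ∀ i, SP (f i))
    (hg : ∀ i, SP (g i)) (hdiv : ∀ x, ∑ i, pd i (u i) x = 0) :
    ∑ i, ∑ j, I3 (u j) (f i) (pd j (crl g i)) + ∑ i, ∑ j, I3 (u j) (g i) (pd j (crl f i))
      = -L1 u f g := by
  have h1 : ∑ i, ∑ j, I3 (u j) (f i) (pd j (crl g i))
      = ∑ i, ∑ j, I3 (u j) (crl f i) (pd j (g i))
      + ∑ i, ∑ j, (I3 (pd (i + 1) (u j)) (f (i + 2)) (pd j (g i))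
        - I3 (pd (i + 2) (u j)) (f (i + 1)) (pd j (g i))) := by
    rw [Finset.sum_comm, Finset.sum_comm (f := fun i j => I3 (u j) (crl f i) (pd j (g i))),
      Finset.sum_comm (f := fun i j => I3 (pd (i + 1) (u j)) (f (i + 2)) (pd j (g i))
        - I3 (pd (i + 2) (u j)) (f (i + 1)) (pd j (g i))), ← Finset.sum_add_distrib]
    refine Finset.sum_congr rfl fun j _ => ?_
    simp_rw [pd_crl hg]
    exact I3_crl (hu j) hf fun i => (hg i).pd j
  have h2 : ∀ i, ∑ j, I3 (u j) (crl f i) (pd j (g i))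
      = -∑ j, I3 (u j) (g i) (pd j (crl f i)) := by
    intro i
    rw [tr3 hu hdiv (sp_crl hf i) (hg i)]
    simp_rw [fun j => I3_swap (u j) (pd j (crl f i)) (g i)]
  have h3 : ∀ i, ∑ j, (I3 (pd (i + 1) (u j)) (f (i + 2)) (pd j (g i))
      - I3 (pd (i + 2) (u j)) (f (i + 1)) (pd j (g i)))
      = -∑ j, (I3 (pd (i + 1) (u j)) (pd j (f (i + 2))) (g i)
        - I3 (pd (i + 2) (u j)) (pd j (f (i + 1))) (g i)) := by
    intro i
    rw [Finset.sum_sub_distrib, Finset.sum_sub_distrib,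
      tr3 (fun j => (hu j).pd (i + 1)) (div_pd hu hdiv (i + 1)) (hf _) (hg i),
      tr3 (fun j => (hu j).pd (i + 2)) (div_pd hu hdiv (i + 2)) (hf _) (hg i)]
    ring
  rw [h1]
  simp_rw [h2, h3]
  rw [Finset.sum_neg_distrib, Finset.sum_neg_distrib]
  unfold L1
  ring

/-- the convective term does not change the helicity -/
theorem conv_crl {u : Fin 3 → V → ℝ} (hu : ∀ i, SP (u i)) :
    ∑ i, ∑ j, I3 (u j) (pd j (u i)) (crl u i) = 0 := by
  -- the gradient part
  set φ : V → ℝ := fun x => ∑ j, u j x * u j x with hφ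
  have sφ : SP φ := SP.sum fun j _ => (hu j).mul (hu j)
  have hdc : ∀ x, ∑ i, pd i (crl u i) x = 0 := by
    intro x
    have e : ∀ i, pd i (crl u i) x
        = pd i (pd (i + 1) (u (i + 2))) x - pd i (pd (i + 2) (u (i + 1))) x := by
      intro i
      unfold crl
      rw [pdsub ((hu _).pd _) ((hu _).pd _)]
    simp_rw [e]
    simp only [Fin.sum_univ_three]
    have f1 : (0 : Fin 3) + 1 = 1 := rfl
    have f2 : (0 : Fin 3) + 2 = 2 := rfl
    have f3 : (1 : Fin 3) + 1 = 2 := rfl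
    have f4 : (1 : Fin 3) + 2 = 0 := rfl
    have f5 : (2 : Fin 3) + 1 = 0 := rfl
    have f6 : (2 : Fin 3) + 2 = 1 := rfl
    rw [f1, f2, f3, f4, f5, f6, pd_comm (hu 2) 0 1, pd_comm (hu 1) 0 2, pd_comm (hu 0) 1 2]
    ring
  have h0 := int_press (v := crl u) (sp_crl hu) hdc sφ
  have hpt : ∀ x, ∑ i, ∑ j, u j x * pd j (u i) x * crl u i x
      = (1 / 2) * ∑ i, crl u i x * pd i φ x := by
    intro x
    have e : ∀ i, pd i φ x = ∑ j, 2 * (u j x * pd i (u j) x) := by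
      intro i
      rw [hφ, pd_sum (fun j _ => (hu j).mul (hu j)) i x]
      refine Finset.sum_congr rfl fun j _ => ?_
      rw [pd_mul (hu j) (hu j)]
      ring
    simp_rw [e]
    unfold crl
    simp only [Fin.sum_univ_three]
    have f1 : (0 : Fin 3) + 1 = 1 := rfl
    have f2 : (0 : Fin 3) + 2 = 2 := rfl
    have f3 : (1 : Fin 3) + 1 = 2 := rfl
    have f4 : (1 : Fin 3) + 2 = 0 := rfl
    have f5 : (2 : Fin 3) + 1 = 0 := rfl
    have f6 : (2 : Fin 3) + 2 = 1 := rfl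
    rw [f1, f2, f3, f4, f5, f6]
    ring
  have hs : ∀ i j, SP (fun x => u j x * pd j (u i) x * crl u i x) := fun i j =>
    ((hu j).mul ((hu i).pd j)).mul (sp_crl hu i)
  unfold I3
  have e1 : ∀ i, ∑ j, ∫ x in cube, u j x * pd j (u i) x * crl u i x
      = ∫ x in cube, ∑ j, u j x * pd j (u i) x * crl u i x := fun i =>
    (integral_finsetSum _ fun j _ => (hs i j).int).symm
  simp_rw [e1]
  rw [← integral_finsetSum _ fun i _ => (SP.sum fun j _ => hs i j).int]
  simp_rw [hpt]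
  rw [integral_const_mul, integral_finsetSum _ fun i _ => ((sp_crl hu i).mul (sφ.pd i)).int, h0,
    mul_zero]

/-- `|D|` -/
noncomputable def Lam (a : V → ℝ) : V → ℝ := Mlt kn a

theorem sp_Lam {a : V → ℝ} (ha : SP a) : SP (Lam a) := sp_Mlt lin_kn ha

theorem fr_Lam {a : V → ℝ} (ha : SP a) (k : K3) : fr (Lam a) k = kn k * fr a k :=
  fr_Mlt lin_kn kn_neg ha k

theorem Bf_comm (a b : V → ℝ) : Bf a b = Bf b a := by
  unfold Bf
  refine tsum_congr fun k => ?_
  rw [pr_comm]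

theorem int_Lam {a b : V → ℝ} (ha : SP a) (hb : SP b) :
    ∫ x in cube, Lam a x * b x = Bf a b := by
  rw [← (parseval (sp_Lam ha) hb).tsum_eq]
  unfold Bf
  refine tsum_congr fun k => ?_
  unfold pr
  rw [fr_Lam ha, mul_assoc, Complex.re_ofReal_mul]

theorem pd_Lam {a : V → ℝ} (ha : SP a) (j : Fin 3) : pd j (Lam a) = Lam (pd j a) := by
  refine sp_ext ((sp_Lam ha).pd j) (sp_Lam (ha.pd j)) fun k => ?_
  rw [fr_pd (sp_Lam ha), fr_Lam (ha.pd j), fr_pd ha]
  unfold D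
  rw [fr_Lam ha]
  ring

theorem fradd {f g : V → ℝ} (hf : SP f) (hg : SP g) (k : K3) :
    fr (fun x => f x + g x) k = fr f k + fr g k := by
  unfold fr fc
  rw [← integral_add]
  · congr 1
    funext x
    push_cast
    ring
  · exact integrableOn_cube ((ee_continuous _).mul (Complex.continuous_ofReal.comp hf.cont))
  · exact integrableOn_cube ((ee_continuous _).mul (Complex.continuous_ofReal.comp hg.cont))

theorem Lam_add {a b : V → ℝ} (ha : SP a) (hb : SP b) :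
    Lam (fun x => a x + b x) = fun x => Lam a x + Lam b x := by
  refine sp_ext (sp_Lam (ha.add hb)) ((sp_Lam ha).add (sp_Lam hb)) fun k => ?_
  rw [fr_Lam (ha.add hb), fradd ha hb, fradd (sp_Lam ha) (sp_Lam hb), fr_Lam ha, fr_Lam hb]
  ring

end Pool.Agent.V1191.NS
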