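import Pool.Agent.H459R3.NS.Defs

/-!
Helical vector fields.
-/

open MeasureTheory Set
open scoped ContDiff

namespace Pool.Agent.V1191.NS

open H459R3.NS

/-- The smooth `1`-periodic vector field `g` is helical with sign `s` (`s = 1` or `s = -1`): its
Fourier coefficients satisfy `i k × ĝ(k) = s |k| ĝ(k)` for every frequency `k`, where
`|k| = (k₀² + k₁² + k₂²)^{1/2}`; that is, `curl g = s |D| g` with `|D| = (-Δ)^{1/2}`. -/
def Helical (s : ℝ) (g : V → V) : Prop :=
  SPV g ∧ ∀ k : K3, ∀ m : Fin 3,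
    Complex.I * crossProduct (fun i => (k i : ℂ)) (fun i => fr (fun x => g x i) k) m
      = (s : ℂ) * (Real.sqrt (∑ l, (k l : ℝ) ^ 2) : ℂ) * fr (fun x => g x m) k

end Pool.Agent.V1191.NS
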