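import Pool.Agent.V1191.NS.Mlt

/-!
A measure on the shifts which represents the length of a frequency.
-/

open MeasureTheory Set Filter Topology ProbabilityTheory
open scoped ContDiff NNReal

namespace Pool.Agent.V1191.NS

open H459R3.NS Pool.Agent.W12.MD.R0

/-- the Gaussian measure on `V` -/
noncomputable def gam : Measure V := Measure.pi fun _ => gaussianReal 0 1

instance : IsProbabilityMeasure gam := by unfold gam; infer_instance

theorem int_ee_gam (k : K3) {t : ℝ} (ht : 0 ≤ t) :
    ∫ z, ee k (Real.sqrt t • z) ∂gam = (Real.exp (-(2 * Real.pi ^ 2 * kk k * t)) : ℂ) := by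
  have e1 : ∀ z : V, ee k (Real.sqrt t • z)
      = ∏ j, Complex.exp (((2 * Real.pi * k j * Real.sqrt t : ℝ) : ℂ) * (z j : ℂ) * Complex.I) := by
    intro z
    rw [← Complex.exp_sum, ee, ph]
    congr 1
    push_cast
    rw [Finset.mul_sum]
    refine Finset.sum_congr rfl fun j _ => ?_
    simp only [Pi.smul_apply, smul_eq_mul]
    push_cast
    ring
  simp_rw [e1]
  unfold gam
  rw [integral_fintype_prod_eq_prod (fun j (s : ℝ) =>
    Complex.exp (((2 * Real.pi * k j * Real.sqrt t : ℝ) : ℂ) * (s : ℂ) * Complex.I))]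
  have e2 : ∀ j, ∫ s : ℝ, Complex.exp (((2 * Real.pi * k j * Real.sqrt t : ℝ) : ℂ) * (s : ℂ)
      * Complex.I) ∂(gaussianReal 0 1)
      = Complex.exp (((-(2 * Real.pi ^ 2 * (k j : ℝ) ^ 2 * t) : ℝ) : ℂ)) := by
    intro j
    have h := charFun_gaussianReal (μ := 0) (v := 1) (2 * Real.pi * k j * Real.sqrt t)
    rw [charFun_apply_real] at h
    rw [h]
    congr 1
    have hs : (Real.sqrt t) ^ 2 = t := Real.sq_sqrt ht
    push_cast
    have hs' : ((Real.sqrt t : ℝ) : ℂ) ^ 2 = (t : ℂ) := by exact_mod_cast hs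
    rw [mul_pow, hs']
    ring
  rw [Finset.prod_congr rfl fun j _ => e2 j, ← Complex.exp_sum]
  unfold kk
  push_cast
  congr 1
  rw [Finset.mul_sum, Finset.sum_mul, ← Finset.sum_neg_distrib]

theorem norm_one_sub_sq (k : K3) (y : V) : ‖1 - ee k (-y)‖ ^ 2 = 2 - 2 * (ee k y).re := by
  have h1 : ee k (-y) = (starRingEnd ℂ) (ee k y) := by
    rw [← ee_neg]
    unfold ee ph
    congr 2
    push_cast
    simp
  have h2 : Complex.normSq (ee k y) = 1 := by
    rw [Complex.normSq_eq_norm_sq, norm_ee, one_pow]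
  rw [h1, ← Complex.normSq_eq_norm_sq, Complex.normSq_sub]
  simp only [map_one, Complex.normSq_conj, h2, one_mul, Complex.conj_conj]
  ring

theorem int_norm_gam (k : K3) {t : ℝ} (ht : 0 ≤ t) :
    ∫ z, ‖1 - ee k (-(Real.sqrt t • z))‖ ^ 2 ∂gam
      = 2 * (1 - Real.exp (-(2 * Real.pi ^ 2 * kk k * t))) := by
  have hc : Continuous fun z : V => ee k (Real.sqrt t • z) :=
    (ee_continuous k).comp (continuous_const_smul _)
  have hi : Integrable (fun z => ee k (Real.sqrt t • z)) gam := by
    refine Integrable.of_bound hc.aestronglyMeasurable 1 (Filter.Eventually.of_forall fun z => ?_)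
    rw [norm_ee]
  simp_rw [norm_one_sub_sq]
  have hir : Integrable (fun z => (ee k (Real.sqrt t • z)).re) gam := Integrable.re hi
  rw [integral_sub (integrable_const _) (hir.const_mul 2), integral_const_mul]
  have h1 : ∫ z, (ee k (Real.sqrt t • z)).re ∂gam = Real.exp (-(2 * Real.pi ^ 2 * kk k * t)) := by
    have h := int_ee_gam k ht
    have h2 : ∫ z, (ee k (Real.sqrt t • z)).re ∂gam = (∫ z, ee k (Real.sqrt t • z) ∂gam).re :=
      integral_re hi
    rw [h2, h]
    exact Complex.ofReal_re _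
  rw [h1]
  simp
  ring

/-- `(1 - e^{-t}) t^{-3/2}` -/
noncomputable def gg (t : ℝ) : ℝ := (1 - Real.exp (-t)) * t ^ (-(3 / 2) : ℝ)

theorem gg_nonneg {t : ℝ} (ht : 0 < t) : 0 ≤ gg t := by
  unfold gg
  have h1 : Real.exp (-t) ≤ 1 := Real.exp_le_one_iff.2 (by linarith)
  have h2 : 0 ≤ t ^ (-(3 / 2) : ℝ) := Real.rpow_nonneg ht.le _
  exact mul_nonneg (by linarith) h2

theorem gg_meas : Measurable gg := by
  unfold gg
  fun_prop

theorem gg_int : IntegrableOn gg (Ioi 0) := by
  have h1 : IntegrableOn (fun t : ℝ => t ^ (-(1 / 2) : ℝ)) (Ioc 0 1) := by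
    have := intervalIntegral.intervalIntegrable_rpow' (a := 0) (b := 1) (r := -(1 / 2))
      (by norm_num)
    rwa [intervalIntegrable_iff_integrableOn_Ioc_of_le zero_le_one] at this
  have h2 : IntegrableOn (fun t : ℝ => t ^ (-(3 / 2) : ℝ)) (Ioi 1) :=
    integrableOn_Ioi_rpow_of_lt (by norm_num) one_pos
  rw [← Ioc_union_Ioi_eq_Ioi (zero_le_one (α := ℝ))]
  refine IntegrableOn.union ?_ ?_
  · refine Integrable.mono' h1 gg_meas.aestronglyMeasurable ?_
    filter_upwards [ae_restrict_mem measurableSet_Ioc] with t ht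
    rw [Real.norm_of_nonneg (gg_nonneg ht.1)]
    unfold gg
    have h3 : 1 - Real.exp (-t) ≤ t := by linarith [Real.add_one_le_exp (-t)]
    calc (1 - Real.exp (-t)) * t ^ (-(3 / 2) : ℝ) ≤ t * t ^ (-(3 / 2) : ℝ) :=
          mul_le_mul_of_nonneg_right h3 (Real.rpow_nonneg ht.1.le _)
      _ = t ^ (-(1 / 2) : ℝ) := by
          nth_rewrite 1 [← Real.rpow_one t]
          rw [← Real.rpow_add ht.1]
          norm_num
  · refine Integrable.mono' h2 gg_meas.aestronglyMeasurable ?_
    filter_upwards [ae_restrict_mem measurableSet_Ioi] with t ht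
    have ht0 : 0 < t := lt_trans one_pos ht
    rw [Real.norm_of_nonneg (gg_nonneg ht0)]
    unfold gg
    have h3 : 1 - Real.exp (-t) ≤ 1 := by linarith [Real.exp_pos (-t)]
    exact mul_le_of_le_one_left (Real.rpow_nonneg ht0.le _) h3

theorem int_gg_pos : 0 < ∫ t in Ioi 0, gg t := by
  rw [setIntegral_pos_iff_support_of_nonneg_ae _ gg_int]
  · have : Function.support gg ∩ Ioi 0 = Ioi 0 := by
      rw [inter_eq_right]
      intro t ht
      rw [Function.mem_support]
      unfold gg
      have h1 : Real.exp (-t) < 1 := Real.exp_lt_one_iff.2 (by simpa using ht)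
      have h2 : 0 < t ^ (-(3 / 2) : ℝ) := Real.rpow_pos_of_pos ht _
      exact (mul_pos (by linarith) h2).ne'
    rw [this]
    simp
  · filter_upwards [ae_restrict_mem measurableSet_Ioi] with t ht using gg_nonneg ht

/-- `∫ (1 - e^{-λ t}) t^{-3/2} dt = √λ · const` -/
theorem int_gg_scale {l : ℝ} (hl : 0 ≤ l) :
    IntegrableOn (fun t : ℝ => (1 - Real.exp (-(l * t))) * t ^ (-(3 / 2) : ℝ)) (Ioi 0) ∧
    ∫ t in Ioi 0, (1 - Real.exp (-(l * t))) * t ^ (-(3 / 2) : ℝ)
      = Real.sqrt l * ∫ t in Ioi 0, gg t := by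
  rcases hl.eq_or_lt with h | h
  · subst h
    simp
  · have e : ∀ t ∈ Ioi (0 : ℝ), (1 - Real.exp (-(l * t))) * t ^ (-(3 / 2) : ℝ)
        = l ^ (3 / 2 : ℝ) * gg (l * t) := by
      intro t ht
      unfold gg
      rw [Real.mul_rpow h.le (le_of_lt ht)]
      have : l ^ (3 / 2 : ℝ) * l ^ (-(3 / 2) : ℝ) = 1 := by
        rw [← Real.rpow_add h]; norm_num
      calc _ = (l ^ (3 / 2 : ℝ) * l ^ (-(3 / 2) : ℝ)) * ((1 - Real.exp (-(l * t)))
            * t ^ (-(3 / 2) : ℝ)) := by rw [this, one_mul]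
        _ = _ := by ring
    constructor
    · rw [integrableOn_congr_fun e measurableSet_Ioi]
      refine Integrable.const_mul ?_ _
      have := (integrableOn_Ioi_comp_mul_left_iff gg 0 h).2 (by rw [mul_zero]; exact gg_int)
      exact this
    · rw [setIntegral_congr_fun measurableSet_Ioi e, integral_const_mul,
        integral_comp_mul_left_Ioi gg 0 h, mul_zero, smul_eq_mul, ← mul_assoc]
      congr 1
      rw [← Real.rpow_neg_one, ← Real.rpow_add h, Real.sqrt_eq_rpow]
      norm_num

/-- the measure on the scales -/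
noncomputable def tau : Measure ℝ :=
  (volume.restrict (Ioi 0)).withDensity fun t => ENNReal.ofReal (t ^ (-(3 / 2) : ℝ))

instance : SigmaFinite tau := by
  unfold tau
  exact SigmaFinite.withDensity_ofReal _

/-- the measure on the shifts -/
noncomputable def kap : Measure V := (tau.prod gam).map fun p => Real.sqrt p.1 • p.2

theorem tau_toReal {t : ℝ} (ht : t ∈ Ioi (0 : ℝ)) :
    (ENNReal.ofReal (t ^ (-(3 / 2) : ℝ))).toReal = t ^ (-(3 / 2) : ℝ) :=
  ENNReal.toReal_ofReal (Real.rpow_nonneg (le_of_lt ht) _)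

theorem tau_integrable {f : ℝ → ℝ} : Integrable f tau ↔
    IntegrableOn (fun t => t ^ (-(3 / 2) : ℝ) * f t) (Ioi 0) := by
  unfold tau
  rw [integrable_withDensity_iff_integrable_smul' (by fun_prop)
    (Filter.Eventually.of_forall fun _ => ENNReal.ofReal_lt_top)]
  refine integrable_congr ?_
  filter_upwards [ae_restrict_mem measurableSet_Ioi] with t ht
  rw [tau_toReal ht, smul_eq_mul]

theorem tau_integral (f : ℝ → ℝ) : ∫ t, f t ∂tau = ∫ t in Ioi 0, t ^ (-(3 / 2) : ℝ) * f t := by
  unfold tau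
  rw [integral_withDensity_eq_integral_toReal_smul (by fun_prop)
    (Filter.Eventually.of_forall fun _ => ENNReal.ofReal_lt_top)]
  refine integral_congr_ae ?_
  filter_upwards [ae_restrict_mem measurableSet_Ioi] with t ht
  rw [tau_toReal ht, smul_eq_mul]

theorem tau_pos : ∀ᵐ t ∂tau, 0 < t := by
  unfold tau
  exact (withDensity_absolutelyContinuous _ _).ae_le (ae_restrict_mem measurableSet_Ioi)

theorem exists_kap : ∃ c : ℝ, 0 < c ∧ ∀ k : K3, Integrable (fun y => ‖1 - ee k (-y)‖ ^ 2) kap ∧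
    ∫ y, ‖1 - ee k (-y)‖ ^ 2 ∂kap = c * kn k := by
  have hc : ∀ k, Continuous fun y : V => ‖1 - ee k (-y)‖ ^ 2 := fun k =>
    ((continuous_const.sub ((ee_continuous k).comp continuous_neg)).norm.pow 2)
  have hm : Continuous fun p : ℝ × V => Real.sqrt p.1 • p.2 := by fun_prop
  refine ⟨2 * Real.sqrt (2 * Real.pi ^ 2) * ∫ t in Ioi 0, gg t, ?_, fun k => ?_⟩
  · have h1 := int_gg_pos
    have h2 := Real.pi_pos
    have h3 : 0 < Real.sqrt (2 * Real.pi ^ 2) := Real.sqrt_pos.2 (by positivity)
    positivity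
  · have hl : 0 ≤ 2 * Real.pi ^ 2 * kk k := by
      have := kk_nonneg k
      positivity
    obtain ⟨s1, s2⟩ := int_gg_scale hl
    have hF : Continuous fun p : ℝ × V => ‖1 - ee k (-(Real.sqrt p.1 • p.2))‖ ^ 2 :=
      (hc k).comp hm
    have hval : ∀ᵐ t ∂tau, ∫ z, ‖1 - ee k (-(Real.sqrt t • z))‖ ^ 2 ∂gam
        = 2 * (1 - Real.exp (-(2 * Real.pi ^ 2 * kk k * t))) := by
      filter_upwards [tau_pos] with t ht using int_norm_gam k ht.le
    have hint : Integrable (fun t => 2 * (1 - Real.exp (-(2 * Real.pi ^ 2 * kk k * t)))) tau := by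
      rw [tau_integrable]
      refine (s1.const_mul 2).congr (Filter.Eventually.of_forall fun t => ?_)
      beta_reduce
      ring
    have hi : Integrable (fun p : ℝ × V => ‖1 - ee k (-(Real.sqrt p.1 • p.2))‖ ^ 2)
        (tau.prod gam) := by
      rw [integrable_prod_iff hF.aestronglyMeasurable]
      constructor
      · refine Filter.Eventually.of_forall fun t => ?_
        refine Integrable.of_bound (C := 4)
          (hF.comp (Continuous.prodMk_right t)).aestronglyMeasurable ?_
        refine Filter.Eventually.of_forall fun z => ?_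
        rw [Real.norm_of_nonneg (sq_nonneg _)]
        have h1 : ‖1 - ee k (-(Real.sqrt t • z))‖ ≤ 2 := by
          refine (norm_sub_le _ _).trans ?_
          rw [norm_one, norm_ee]
          norm_num
        nlinarith [norm_nonneg (1 - ee k (-(Real.sqrt t • z)))]
      · refine hint.congr ?_
        filter_upwards [hval] with t ht
        rw [← ht]
        congr 1
        funext z
        rw [Real.norm_of_nonneg (sq_nonneg _)]
    constructor
    · unfold kap
      rw [integrable_map_measure (hc k).aestronglyMeasurable hm.aemeasurable]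
      exact hi
    · unfold kap
      rw [integral_map hm.aemeasurable (hc k).aestronglyMeasurable, integral_prod _ hi,
        integral_congr_ae hval, tau_integral]
      have e : ∀ t : ℝ, t ^ (-(3 / 2) : ℝ) * (2 * (1 - Real.exp (-(2 * Real.pi ^ 2 * kk k * t))))
          = 2 * ((1 - Real.exp (-(2 * Real.pi ^ 2 * kk k * t))) * t ^ (-(3 / 2) : ℝ)) := by
        intro t; ring
      simp_rw [e]
      rw [integral_const_mul, s2, Real.sqrt_mul (by positivity)]
      unfold kn
      ring

end Pool.Agent.V1191.NS
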