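import Pool.Agent.V1191.NS.Loc
import Pool.Agent.V1191.NS.Kap

/-!
Differences of periodic functions; the product rule for the form of the length of the frequency.
-/

open MeasureTheory Set Filter Topology
open scoped ContDiff ENNReal

namespace Pool.Agent.V1191.NS

open H459R3.NS Pool.Agent.W12.MD.R0

/-- translation -/
def sh (y : V) (a : V → ℝ) (x : V) : ℝ := a (x - y)

/-- difference -/
def dl (y : V) (a : V → ℝ) (x : V) : ℝ := a x - a (x - y)

theorem sp_sh {a : V → ℝ} (ha : SP a) (y : V) : SP (sh y a) where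
  smooth := ha.smooth.comp (contDiff_id.sub contDiff_const)
  per := fun i x => by
    unfold sh
    rw [show x + Pi.single i 1 - y = (x - y) + Pi.single i 1 by abel, ha.per]

theorem sp_dl {a : V → ℝ} (ha : SP a) (y : V) : SP (dl y a) where
  smooth := ha.smooth.sub (sp_sh ha y).smooth
  per := fun i x => by
    have := (sp_sh ha y).per i x
    unfold sh at this
    unfold dl
    rw [this, ha.per]

theorem fr_sh {a : V → ℝ} (ha : SP a) (y : V) (k : K3) : fr (sh y a) k = ee k (-y) * fr a k := by
  have hr : Rap (fun k => ee k (-y) * fr a k) := by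
    intro n
    have := rap_fr ha n
    simpa [norm_mul, norm_ee] using this
  have e : ∀ x, ((sh y a x : ℝ) : ℂ) = S (fun k => ee k (-y) * fr a k) x := by
    intro x
    unfold sh
    rw [← S_fr ha]
    unfold S
    refine tsum_congr fun k => ?_
    rw [sub_eq_add_neg, ee_add]
    ring
  unfold fr fc
  simp_rw [e]
  rw [integral_ee_S _ hr.summable, neg_neg]
  rfl

theorem fr_dl {a : V → ℝ} (ha : SP a) (y : V) (k : K3) :
    fr (dl y a) k = (1 - ee k (-y)) * fr a k := by
  have h1 : fr (dl y a) k = fr a k - fr (sh y a) k := by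
    unfold fr fc
    rw [← integral_sub]
    · congr 1
      funext x
      unfold dl sh
      push_cast
      ring
    · exact integrableOn_cube ((ee_continuous _).mul (Complex.continuous_ofReal.comp ha.cont))
    · exact integrableOn_cube
        ((ee_continuous _).mul (Complex.continuous_ofReal.comp (sp_sh ha y).cont))
  rw [h1, fr_sh ha]
  ring

theorem int_sh {a : V → ℝ} (ha : SP a) (y : V) : ∫ x in cube, sh y a x = ∫ x in cube, a x := by
  have h := fr_sh ha y 0
  have e : ∀ f : V → ℝ, fr f 0 = ((∫ x in cube, f x : ℝ) : ℂ) := by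
    intro f
    unfold fr fc
    simp_rw [neg_zero, ee_zero, one_mul]
    exact integral_complex_ofReal
  rw [e, e, ee_zero, one_mul] at h
  exact_mod_cast h

theorem pd_sh {a : V → ℝ} (y : V) (j : Fin 3) : pd j (sh y a) = sh y (pd j a) := by
  funext x
  unfold sh pd
  rw [fderiv_comp_sub]

theorem pd_dl {a : V → ℝ} (ha : SP a) (y : V) (j : Fin 3) : pd j (dl y a) = dl y (pd j a) := by
  have h1 : pd j (dl y a) = fun x => pd j a x - pd j (sh y a) x := by
    funext x
    unfold pd
    have : dl y a = a - sh y a := rfl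
    rw [this, fderiv_sub (ha.diff x) ((sp_sh ha y).diff x)]
    rfl
  rw [h1, pd_sh]
  rfl

/-- the value of a pairing of differences -/
theorem int_dl_mul {a b : V → ℝ} (ha : SP a) (hb : SP b) (y : V) :
    HasSum (fun k => ‖1 - ee k (-y)‖ ^ 2 * pr (fr a) (fr b) k)
      (∫ x in cube, dl y a x * dl y b x) := by
  have h := parseval (sp_dl ha y) (sp_dl hb y)
  convert! h using 1
  funext k
  unfold pr
  rw [fr_dl ha, fr_dl hb, map_mul]
  have : (1 - ee k (-y)) * fr a k * ((starRingEnd ℂ) (1 - ee k (-y)) * (starRingEnd ℂ) (fr b k))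
      = ((‖1 - ee k (-y)‖ ^ 2 : ℝ) : ℂ) * (fr a k * (starRingEnd ℂ) (fr b k)) := by
    rw [← Complex.normSq_eq_norm_sq, ← Complex.mul_conj]
    ring
  rw [this, Complex.re_ofReal_mul]

/-- the bilinear form of the length of the frequency -/
noncomputable def Bf (a b : V → ℝ) : ℝ := ∑' k, kn k * pr (fr a) (fr b) k

theorem cont_dl {a : V → ℝ} (ha : SP a) : Continuous fun p : V × V => dl p.1 a p.2 := by
  unfold dl
  have := ha.cont
  fun_prop

theorem cont_int {F : V → V → ℝ} (hF : Continuous fun p : V × V => F p.1 p.2) :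
    Continuous fun y => ∫ x in cube, F y x :=
  continuous_parametric_integral_of_continuous (f := F) hF isCompact_Icc

/-- `∫∫ δa δb = c B(a, b)` -/
theorem int_E {c : ℝ} (hc : ∀ k : K3, Integrable (fun y => ‖1 - ee k (-y)‖ ^ 2) kap ∧
    ∫ y, ‖1 - ee k (-y)‖ ^ 2 ∂kap = c * kn k) {a b : V → ℝ} (ha : SP a) (hb : SP b) :
    Integrable (fun y => ∫ x in cube, dl y a x * dl y b x) kap ∧
    ∫ y, (∫ x in cube, dl y a x * dl y b x) ∂kap = c * Bf a b := by
  set F : K3 → V → ℝ := fun k y => ‖1 - ee k (-y)‖ ^ 2 * pr (fr a) (fr b) k with hF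
  have hFi : ∀ k, Integrable (F k) kap := fun k => (hc k).1.mul_const _
  have hsum := summable_pr pol_kn (rap_fr ha) (rap_fr hb)
  have hnorm : ∀ k, ∫ y, ‖F k y‖ ∂kap = c * ‖kn k * pr (fr a) (fr b) k‖ := by
    intro k
    have e : ∀ y, ‖F k y‖ = ‖1 - ee k (-y)‖ ^ 2 * |pr (fr a) (fr b) k| := by
      intro y
      simp only [hF]
      rw [norm_mul, Real.norm_of_nonneg (sq_nonneg _), Real.norm_eq_abs]
    simp_rw [e]
    rw [integral_mul_const, (hc k).2, norm_mul, Real.norm_of_nonneg (kn_nonneg k),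
      Real.norm_eq_abs]
    ring
  have hs : Summable fun k => ∫ y, ‖F k y‖ ∂kap := by
    simp_rw [hnorm]
    exact hsum.norm.mul_left c
  have hval : ∀ y, ∑' k, F k y = ∫ x in cube, dl y a x * dl y b x := fun y =>
    (int_dl_mul ha hb y).tsum_eq
  have hcont : Continuous fun y => ∫ x in cube, dl y a x * dl y b x :=
    cont_int ((cont_dl ha).mul (cont_dl hb))
  constructor
  · refine ⟨hcont.aestronglyMeasurable, ?_⟩
    unfold HasFiniteIntegral
    have h1 : ∀ y, ‖∫ x in cube, dl y a x * dl y b x‖ₑ ≤ ∑' k, ‖F k y‖ₑ := by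
      intro y
      rw [← hval y]
      exact enorm_tsum_le_tsum_enorm
    refine lt_of_le_of_lt (lintegral_mono h1) ?_
    rw [lintegral_tsum fun k => (hFi k).aestronglyMeasurable.enorm]
    have h2 : ∀ k, ∫⁻ y, ‖F k y‖ₑ ∂kap = ENNReal.ofReal (∫ y, ‖F k y‖ ∂kap) := fun k =>
      (ofReal_integral_norm_eq_lintegral_enorm (hFi k)).symm
    simp_rw [h2]
    rw [← ENNReal.ofReal_tsum_of_nonneg (fun k => integral_nonneg fun y => norm_nonneg _) hs]
    exact ENNReal.ofReal_lt_top
  · have h := hasSum_integral_of_summable_integral_norm hFi hs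
    simp_rw [hval] at h
    rw [← h.tsum_eq]
    unfold Bf
    rw [← tsum_mul_left]
    refine tsum_congr fun k => ?_
    simp only [hF]
    rw [integral_mul_const, (hc k).2]
    ring

end Pool.Agent.V1191.NS
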