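import Pool.Agent.V1191.NS.Dif

/-!
The product rule and the bound of the remainder.
-/

open MeasureTheory Set Filter Topology
open scoped ContDiff ENNReal

namespace Pool.Agent.V1191.NS

open H459R3.NS Pool.Agent.W12.MD.R0

/-- the remainder at the shift `y` -/
noncomputable def Jr (a b w : V → ℝ) (y : V) : ℝ :=
  ∫ x in cube, (w x + sh y w x) * dl y a x * dl y b x

variable {a b w : V → ℝ}

theorem Jr_eq (ha : SP a) (hb : SP b) (hw : SP w) (y : V) :
    Jr a b w y = (∫ x in cube, dl y b x * dl y (fun x => a x * w x) x)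
      + (∫ x in cube, dl y a x * dl y (fun x => b x * w x) x)
      - ∫ x in cube, dl y (fun x => a x * b x) x * dl y w x := by
  have i1 : IntegrableOn (fun x => dl y b x * dl y (fun x => a x * w x) x) cube :=
    ((sp_dl hb y).mul (sp_dl (ha.mul hw) y)).int
  have i2 : IntegrableOn (fun x => dl y a x * dl y (fun x => b x * w x) x) cube :=
    ((sp_dl ha y).mul (sp_dl (hb.mul hw) y)).int
  have i3 : IntegrableOn (fun x => dl y (fun x => a x * b x) x * dl y w x) cube :=
    ((sp_dl (ha.mul hb) y).mul (sp_dl hw y)).int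
  have i12 : IntegrableOn (fun x => dl y b x * dl y (fun x => a x * w x) x
      + dl y a x * dl y (fun x => b x * w x) x) cube := i1.add i2
  rw [← integral_add i1 i2, ← integral_sub i12 i3]
  unfold Jr
  congr 1
  funext x
  unfold dl sh
  ring

/-- The product rule. -/
theorem prod_rule {c : ℝ} (hc : ∀ k : K3, Integrable (fun y => ‖1 - ee k (-y)‖ ^ 2) kap ∧
    ∫ y, ‖1 - ee k (-y)‖ ^ 2 ∂kap = c * kn k) (ha : SP a) (hb : SP b) (hw : SP w) :
    Integrable (Jr a b w) kap ∧
    c * Bf (fun x => a x * b x) w = c * Bf b (fun x => a x * w x)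
      + c * Bf a (fun x => b x * w x) - ∫ y, Jr a b w y ∂kap := by
  obtain ⟨i1, e1⟩ := int_E hc hb (ha.mul hw)
  obtain ⟨i2, e2⟩ := int_E hc ha (hb.mul hw)
  obtain ⟨i3, e3⟩ := int_E hc (ha.mul hb) hw
  have e : Jr a b w = fun y => (∫ x in cube, dl y b x * dl y (fun x => a x * w x) x)
      + (∫ x in cube, dl y a x * dl y (fun x => b x * w x) x)
      - ∫ x in cube, dl y (fun x => a x * b x) x * dl y w x := funext fun y => Jr_eq ha hb hw y
  have i12 : Integrable (fun y => (∫ x in cube, dl y b x * dl y (fun x => a x * w x) x)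
      + (∫ x in cube, dl y a x * dl y (fun x => b x * w x) x)) kap := i1.add i2
  constructor
  · rw [e]
    exact i12.sub i3
  · rw [e]
    beta_reduce
    rw [integral_sub i12 i3, integral_add i1 i2, e1, e2, e3]
    ring

section bound

variable {A B : ℝ}

/-- the assumption on the factor `w` -/
def Bdd (A B : ℝ) (w : V → ℝ) : Prop :=
  ∀ z, SP z → ∫ x in cube, w x ^ 2 * z x ^ 2
      ≤ A ^ 2 * (∑ i, ∫ x in cube, pd i z x ^ 2) + B ^ 2 * ∫ x in cube, z x ^ 2

theorem Bdd.sh (h : Bdd A B w) (hw : SP w) (y : V) : Bdd A B (sh y w) := by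
  intro z hz
  have h1 := h _ (sp_sh hz (-y))
  have e1 : (∫ x in cube, NS.sh y w x ^ 2 * z x ^ 2)
      = ∫ x in cube, w x ^ 2 * NS.sh (-y) z x ^ 2 := by
    have hs : SP (fun x => w x ^ 2 * NS.sh (-y) z x ^ 2) := by
      have := (hw.mul hw).mul ((sp_sh hz (-y)).mul (sp_sh hz (-y)))
      simpa [sq] using this
    rw [← int_sh hs y]
    congr 1
    funext x
    unfold NS.sh
    beta_reduce
    rw [sub_neg_eq_add, sub_add_cancel]
  have e2 : ∀ f : V → ℝ, SP f → (∫ x in cube, NS.sh (-y) f x ^ 2) = ∫ x in cube, f x ^ 2 := by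
    intro f hf
    have hs : SP (fun x => f x ^ 2) := by
      have := hf.mul hf
      simpa [sq] using this
    rw [← int_sh hs (-y)]
    rfl
  rw [e1]
  refine h1.trans (le_of_eq ?_)
  rw [e2 z hz]
  congr 2
  refine Finset.sum_congr rfl fun i _ => ?_
  rw [pd_sh, e2 _ (hz.pd i)]

theorem int_mul_le {f g : V → ℝ} (hf : Continuous f) (hg : Continuous g) :
    |∫ x in cube, f x * g x| ≤ Real.sqrt (∫ x in cube, f x ^ 2)
      * Real.sqrt (∫ x in cube, g x ^ 2) := by
  have h := integral_mul_sq_le (μ := volume.restrict cube) (a := f) (b := g)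
    (integrableOn_cube (hf.pow 2)) (integrableOn_cube (hg.pow 2)) (integrableOn_cube (hf.mul hg))
  rw [← Real.sqrt_mul (integral_nonneg fun x => sq_nonneg _), ← Real.sqrt_sq_eq_abs]
  exact Real.sqrt_le_sqrt h

/-- the majorant -/
noncomputable def Mj (A B : ℝ) (a : V → ℝ) (y : V) : ℝ :=
  A ^ 2 * (∑ i, ∫ x in cube, dl y (pd i a) x * dl y (pd i a) x)
    + B ^ 2 * ∫ x in cube, dl y a x * dl y a x

theorem Mj_nonneg (A B : ℝ) (a : V → ℝ) (y : V) : 0 ≤ Mj A B a y := by
  unfold Mj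
  have h1 : ∀ f : V → ℝ, 0 ≤ ∫ x in cube, dl y f x * dl y f x := fun f =>
    integral_nonneg fun x => mul_self_nonneg _
  have h2 : 0 ≤ ∑ i, ∫ x in cube, dl y (pd i a) x * dl y (pd i a) x :=
    Finset.sum_nonneg fun i _ => h1 _
  have h3 := h1 a
  positivity

theorem abs_Jr_le (ha : SP a) (hb : SP b) (hw : SP w) (h : Bdd A B w) (y : V) :
    |Jr a b w y| ≤ 2 * (Real.sqrt (Mj A B a y)
      * Real.sqrt (∫ x in cube, dl y b x * dl y b x)) := by
  have hda := sp_dl ha y
  have hdb := sp_dl hb y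
  have hsw := sp_sh hw y
  have h1 := int_mul_le (f := fun x => (w x + sh y w x) * dl y a x) (g := dl y b)
    ((hw.cont.add hsw.cont).mul hda.cont) hdb.cont
  have key : ∀ w' : V → ℝ, Bdd A B w' → ∫ x in cube, w' x ^ 2 * dl y a x ^ 2 ≤ Mj A B a y := by
    intro w' hw'
    refine (hw' _ hda).trans (le_of_eq ?_)
    unfold Mj
    simp_rw [pd_dl ha y, sq]
  have h2 : ∫ x in cube, ((w x + sh y w x) * dl y a x) ^ 2 ≤ 4 * Mj A B a y := by
    have k1 := key _ h
    have k2 := key _ (h.sh hw y)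
    have i1 : IntegrableOn (fun x => 2 * (w x ^ 2 * dl y a x ^ 2)) cube :=
      (integrableOn_cube ((hw.cont.pow 2).mul (hda.cont.pow 2))).const_mul 2
    have i2 : IntegrableOn (fun x => 2 * (sh y w x ^ 2 * dl y a x ^ 2)) cube :=
      (integrableOn_cube ((hsw.cont.pow 2).mul (hda.cont.pow 2))).const_mul 2
    calc ∫ x in cube, ((w x + sh y w x) * dl y a x) ^ 2
        ≤ ∫ x in cube, (2 * (w x ^ 2 * dl y a x ^ 2) + 2 * (sh y w x ^ 2 * dl y a x ^ 2)) := by
          refine integral_mono (integrableOn_cube (((hw.cont.add hsw.cont).mul hda.cont).pow 2))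
            (i1.add i2) fun x => ?_
          beta_reduce
          nlinarith [mul_nonneg (sq_nonneg (w x - sh y w x)) (sq_nonneg (dl y a x))]
      _ = 2 * (∫ x in cube, w x ^ 2 * dl y a x ^ 2)
          + 2 * ∫ x in cube, sh y w x ^ 2 * dl y a x ^ 2 := by
          rw [integral_add i1 i2, integral_const_mul, integral_const_mul]
      _ ≤ 4 * Mj A B a y := by linarith
  have h3 : Jr a b w y = ∫ x in cube, (w x + sh y w x) * dl y a x * dl y b x := rfl
  rw [h3]
  refine h1.trans ?_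
  have h4 : Real.sqrt (∫ x in cube, ((w x + sh y w x) * dl y a x) ^ 2)
      ≤ 2 * Real.sqrt (Mj A B a y) := by
    refine (Real.sqrt_le_sqrt h2).trans (le_of_eq ?_)
    rw [Real.sqrt_mul (by norm_num), show (4 : ℝ) = 2 ^ 2 by norm_num,
      Real.sqrt_sq (by norm_num)]
  have h5 : (∫ x in cube, dl y b x ^ 2) = ∫ x in cube, dl y b x * dl y b x := by
    congr 1
    funext x
    ring
  rw [h5]
  calc _ ≤ 2 * Real.sqrt (Mj A B a y) * Real.sqrt (∫ x in cube, dl y b x * dl y b x) := by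
        gcongr
    _ = _ := by ring

theorem Bf_self (a : V → ℝ) : Bf a a = Q kn a := by
  unfold Bf Q
  simp_rw [pr_self]

theorem norm_fr_pd {z : V → ℝ} (hz : SP z) (i : Fin 3) (k : K3) :
    ‖fr (pd i z) k‖ ^ 2 = 4 * Real.pi ^ 2 * (k i : ℝ) ^ 2 * ‖fr z k‖ ^ 2 := by
  rw [fr_pd hz, D, norm_mul, norm_mul, norm_mul, norm_mul, Complex.norm_I, mul_one,
      Complex.norm_real, Real.norm_eq_abs, abs_of_pos Real.pi_pos, Complex.norm_ofNat,
      Complex.norm_intCast, mul_pow, mul_pow, mul_pow, sq_abs]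
  ring

theorem pol_sq (i : Fin 3) : Pol (fun k => (k i : ℝ) ^ 2) := by
  obtain ⟨C, n, hC, h⟩ := pol_kk
  refine ⟨C, n, hC, fun k => ?_⟩
  have h1 := h k
  rw [abs_of_nonneg (kk_nonneg k)] at h1
  rw [abs_of_nonneg (sq_nonneg _)]
  exact (sq_le_kk k i).trans h1

/-- the sum over the derivatives -/
theorem sum_Q_pd {m : K3 → ℝ} (hm : Pol m) {z : V → ℝ} (hz : SP z) :
    ∑ i, Q m (pd i z) = 4 * Real.pi ^ 2 * Q (fun k => m k * kk k) z := by
  unfold Q
  rw [← Summable.tsum_finsetSum fun i _ => summable_Q hm (hz.pd i), ← tsum_mul_left]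
  refine tsum_congr fun k => ?_
  unfold kk
  beta_reduce
  rw [Finset.mul_sum, Finset.sum_mul, Finset.mul_sum]
  refine Finset.sum_congr rfl fun i _ => ?_
  rw [norm_fr_pd hz]
  ring

/-- The bound of the remainder. -/
theorem abs_int_Jr_le {c : ℝ} (hc0 : 0 < c)
    (hc : ∀ k : K3, Integrable (fun y => ‖1 - ee k (-y)‖ ^ 2) kap ∧
    ∫ y, ‖1 - ee k (-y)‖ ^ 2 ∂kap = c * kn k) (ha : SP a) (hb : SP b) (hw : SP w)
    (h : Bdd A B w) :
    |∫ y, Jr a b w y ∂kap| ≤ 2 * c * (Real.sqrt (4 * Real.pi ^ 2 * A ^ 2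
      * Q (fun k => kn k * kk k) a + B ^ 2 * Q kn a) * Real.sqrt (Q kn b)) := by
  obtain ⟨iJ, -⟩ := prod_rule hc ha hb hw
  have iM : Integrable (Mj A B a) kap := by
    unfold Mj
    refine Integrable.add (Integrable.const_mul (integrable_finsetSum _ fun i _ => ?_) _)
      (Integrable.const_mul ?_ _)
    · exact (int_E hc (ha.pd i) (ha.pd i)).1
    · exact (int_E hc ha ha).1
  have eM : ∫ y, Mj A B a y ∂kap = c * (4 * Real.pi ^ 2 * A ^ 2
      * Q (fun k => kn k * kk k) a + B ^ 2 * Q kn a) := by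
    unfold Mj
    rw [integral_add (Integrable.const_mul (integrable_finsetSum _ fun i _ =>
        (int_E hc (ha.pd i) (ha.pd i)).1) _) (Integrable.const_mul (int_E hc ha ha).1 _),
      integral_const_mul, integral_const_mul,
      integral_finsetSum _ fun i _ => (int_E hc (ha.pd i) (ha.pd i)).1, (int_E hc ha ha).2]
    have e1 : ∀ i ∈ (Finset.univ : Finset (Fin 3)), ∫ y, (∫ x in cube, dl y (pd i a) x
        * dl y (pd i a) x) ∂kap = c * Q kn (pd i a) := fun i _ => by
      rw [(int_E hc (ha.pd i) (ha.pd i)).2, Bf_self]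
    rw [Finset.sum_congr rfl e1, ← Finset.mul_sum, sum_Q_pd pol_kn ha, Bf_self]
    ring
  obtain ⟨iG, eG⟩ := int_E hc hb hb
  rw [Bf_self] at eG
  set G : V → ℝ := fun y => ∫ x in cube, dl y b x * dl y b x with hG
  have hG0 : ∀ y, 0 ≤ G y := fun y => integral_nonneg fun x => mul_self_nonneg _
  have hM0 := Mj_nonneg A B a
  have s1 : ∀ y, Real.sqrt (Mj A B a y) ^ 2 = Mj A B a y := fun y => Real.sq_sqrt (hM0 y)
  have s2 : ∀ y, Real.sqrt (G y) ^ 2 = G y := fun y => Real.sq_sqrt (hG0 y)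
  have iMG : Integrable (fun y => Real.sqrt (Mj A B a y) * Real.sqrt (G y)) kap := by
    refine Integrable.mono' (iM.add iG) ?_ (Filter.Eventually.of_forall fun y => ?_)
    · exact (Real.continuous_sqrt.comp_aestronglyMeasurable iM.1).mul
        (Real.continuous_sqrt.comp_aestronglyMeasurable iG.1)
    · rw [Real.norm_of_nonneg (mul_nonneg (Real.sqrt_nonneg _) (Real.sqrt_nonneg _))]
      have := sq_nonneg (Real.sqrt (Mj A B a y) - Real.sqrt (G y))
      have q1 := s1 y
      have q2 := s2 y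
      have q3 := hM0 y
      have q4 := hG0 y
      simp only [Pi.add_apply]
      nlinarith
  have hCS := integral_mul_sq_le (μ := kap) (a := fun y => Real.sqrt (Mj A B a y))
    (b := fun y => Real.sqrt (G y)) (by simp_rw [s1]; exact iM) (by simp_rw [s2]; exact iG) iMG
  simp_rw [s1, s2] at hCS
  rw [eM, eG] at hCS
  have hI0 : 0 ≤ ∫ y, Real.sqrt (Mj A B a y) * Real.sqrt (G y) ∂kap :=
    integral_nonneg fun y => mul_nonneg (Real.sqrt_nonneg _) (Real.sqrt_nonneg _)
  set X : ℝ := 4 * Real.pi ^ 2 * A ^ 2 * Q (fun k => kn k * kk k) a + B ^ 2 * Q kn a with hX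
  have hX0 : 0 ≤ X := by
    have q1 : 0 ≤ Q (fun k => kn k * kk k) a :=
      Q_nonneg (fun k => mul_nonneg (kn_nonneg k) (kk_nonneg k)) a
    have q2 : 0 ≤ Q kn a := Q_nonneg kn_nonneg a
    positivity
  have hY0 : 0 ≤ Q kn b := Q_nonneg kn_nonneg b
  have h1 : |∫ y, Jr a b w y ∂kap| ≤ 2 * ∫ y, Real.sqrt (Mj A B a y) * Real.sqrt (G y) ∂kap := by
    rw [← Real.norm_eq_abs, ← integral_const_mul]
    refine norm_integral_le_of_norm_le (iMG.const_mul 2) (Filter.Eventually.of_forall fun y => ?_)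
    rw [Real.norm_eq_abs]
    exact abs_Jr_le ha hb hw h y
  have h2 : ∫ y, Real.sqrt (Mj A B a y) * Real.sqrt (G y) ∂kap
      ≤ c * (Real.sqrt X * Real.sqrt (Q kn b)) := by
    refine le_of_sq_le_sq (hCS.trans (le_of_eq ?_)) (by positivity)
    rw [mul_pow, mul_pow, Real.sq_sqrt hX0, Real.sq_sqrt hY0]
    ring
  refine h1.trans ?_
  linarith

end bound

end Pool.Agent.V1191.NS
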