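import Pool.Agent.V1191.NS.Bnd
import Pool.Agent.H459R3.NS.Final

/-!
The time derivative of the norm of order one half.
-/

open MeasureTheory Set Filter Topology
open scoped ContDiff ENNReal

namespace Pool.Agent.V1191.NS

open H459R3.NS Pool.Agent.W12.MD.R0

/-! ### A majorant -/

theorem dist_add (k l : K3) (y : V) : ‖1 - ee (k + l) y‖ ≤ ‖1 - ee k y‖ + ‖1 - ee l y‖ := by
  have e : 1 - ee (k + l) y = (1 - ee k y) + ee k y * (1 - ee l y) := by
    rw [ee_add_left]; ring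
  rw [e]
  refine (norm_add_le _ _).trans ?_
  rw [norm_mul, norm_ee, one_mul]

theorem dist_neg (k : K3) (y : V) : ‖1 - ee (-k) y‖ = ‖1 - ee k y‖ := by
  have e : 1 - ee (-k) y = (starRingEnd ℂ) (1 - ee k y) := by
    rw [ee_neg, map_sub, map_one]
  rw [e, RCLike.norm_conj]

theorem dist_nsmul (k : K3) (y : V) (n : ℕ) : ‖1 - ee (n • k) y‖ ≤ n * ‖1 - ee k y‖ := by
  induction n with
  | zero => simp [ee_zero]
  | succ n ih =>
    rw [succ_nsmul]
    refine (dist_add _ _ y).trans ?_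
    push_cast
    linarith

theorem dist_zsmul (k : K3) (y : V) (n : ℤ) : ‖1 - ee (n • k) y‖ ≤ |(n : ℝ)| * ‖1 - ee k y‖ := by
  obtain ⟨m, rfl | rfl⟩ := n.eq_nat_or_neg
  · have := dist_nsmul k y m
    rw [natCast_zsmul]
    simpa using this
  · have := dist_nsmul k y m
    rw [neg_smul, natCast_zsmul, dist_neg]
    simpa using this

/-- the majorant -/
noncomputable def hh (y : V) : ℝ := ∑ j : Fin 3, ‖1 - ee (Pi.single j 1) (-y)‖ ^ 2

theorem hh_nonneg (y : V) : 0 ≤ hh y := Finset.sum_nonneg fun _ _ => sq_nonneg _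

theorem dist_le (k : K3) (y : V) : ‖1 - ee k (-y)‖ ^ 2 ≤ kk k * hh y := by
  have e : k = (k 0) • (Pi.single 0 1 : K3) + (k 1) • (Pi.single 1 1 : K3)
      + (k 2) • (Pi.single 2 1 : K3) := by
    funext i
    fin_cases i <;> simp
  have h1 : ‖1 - ee k (-y)‖ ≤ ∑ j : Fin 3, |(k j : ℝ)| * ‖1 - ee (Pi.single j 1) (-y)‖ := by
    rw [Fin.sum_univ_three]
    conv_lhs => rw [e]
    refine (dist_add _ _ _).trans ?_
    refine add_le_add ((dist_add _ _ _).trans ?_) (dist_zsmul _ _ _)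
    exact add_le_add (dist_zsmul _ _ _) (dist_zsmul _ _ _)
  refine (pow_le_pow_left₀ (norm_nonneg _) h1 2).trans ?_
  refine (Finset.sum_mul_sq_le_sq_mul_sq _ _ _).trans (le_of_eq ?_)
  unfold kk hh
  simp_rw [sq_abs]

theorem hh_int {c : ℝ} (hc : ∀ k : K3, Integrable (fun y => ‖1 - ee k (-y)‖ ^ 2) kap ∧
    ∫ y, ‖1 - ee k (-y)‖ ^ 2 ∂kap = c * kn k) : Integrable hh kap :=
  integrable_finsetSum _ fun _ _ => (hc _).1

theorem abs_dl_le {a b : V → ℝ} (ha : SP a) (hb : SP b) (y : V) :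
    |∫ x in cube, dl y a x * dl y b x| ≤ hh y * (Real.sqrt (Q kk a) * Real.sqrt (Q kk b)) := by
  have h := int_dl_mul ha hb y
  obtain ⟨s1, s2⟩ := tsum_cs kk_nonneg (fun k => norm_nonneg (fr a k))
    (fun k => norm_nonneg (fr b k)) (summable_Q pol_kk ha) (summable_Q pol_kk hb)
  rw [← h.tsum_eq, ← Real.norm_eq_abs]
  have hle : ∀ k, ‖‖1 - ee k (-y)‖ ^ 2 * pr (fr a) (fr b) k‖
      ≤ hh y * (kk k * (‖fr a k‖ * ‖fr b k‖)) := by
    intro k
    rw [norm_mul, Real.norm_of_nonneg (sq_nonneg _), Real.norm_eq_abs]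
    calc ‖1 - ee k (-y)‖ ^ 2 * |pr (fr a) (fr b) k| ≤ (kk k * hh y) * (‖fr a k‖ * ‖fr b k‖) :=
          mul_le_mul (dist_le k y) (abs_pr_le _ _ k) (abs_nonneg _)
            (mul_nonneg (kk_nonneg k) (hh_nonneg y))
      _ = _ := by ring
  refine (tsum_of_norm_bounded ((s1.mul_left (hh y)).hasSum) hle).trans ?_
  rw [tsum_mul_left]
  exact mul_le_mul_of_nonneg_left s2 (hh_nonneg y)

/-! ### Derivatives in time -/

variable {T : ℝ} {f : ℝ → V → ℝ}

theorem contDiffOn_dt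
    (hf : ContDiffOn ℝ ∞ (fun z : ℝ × V => f z.1 z.2) (Ico 0 T ×ˢ univ)) :
    ContDiffOn ℝ ∞ (fun z : ℝ × V => dt f z.1 z.2) (Ioo 0 T ×ˢ univ) := by
  have hO : IsOpen (Ioo 0 T ×ˢ (univ : Set V)) := isOpen_Ioo.prod isOpen_univ
  have h1 : ContDiffOn ℝ ∞ (fderiv ℝ (fun z : ℝ × V => f z.1 z.2)) (Ioo 0 T ×ˢ univ) :=
    (mono_Ioo hf le_rfl).fderiv_of_isOpen hO (by norm_cast)
  have h2 : ContDiffOn ℝ ∞ (fun z : ℝ × V => fderiv ℝ (fun z : ℝ × V => f z.1 z.2) z (1, 0))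
      (Ioo 0 T ×ˢ univ) := h1.clm_apply contDiffOn_const
  exact h2.congr fun z hz => dt_eq hf hz.1 z.2

theorem sp_dt' (hf : ContDiffOn ℝ ∞ (fun z : ℝ × V => f z.1 z.2) (Ico 0 T ×ˢ univ))
    (hp : ∀ t ∈ Ico 0 T, SP (f t)) {t : ℝ} (ht : t ∈ Ioo 0 T) : SP (dt f t) where
  smooth := contDiff_dt hf ht
  per := fun i x => by
    unfold dt
    apply Filter.EventuallyEq.deriv_eq
    filter_upwards [Ioo_mem_nhds ht.1 ht.2] with s hs
    exact (hp s ⟨hs.1.le, hs.2⟩).per i x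

theorem hasDerivAt_dt (hf : ContDiffOn ℝ ∞ (fun z : ℝ × V => f z.1 z.2) (Ico 0 T ×ˢ univ))
    {t : ℝ} (ht : t ∈ Ioo 0 T) (x : V) : HasDerivAt (fun s => f s x) (dt f t x) t := by
  have := hasDerivAt_slice (mono_Ioo hf (by norm_cast)) ht x
  rw [dt_eq hf ht]
  exact this

theorem Q_kk_eq {z : V → ℝ} (hz : SP z) :
    Q kk z = (4 * Real.pi ^ 2)⁻¹ * ∑ i, ∫ x in cube, pd i z x ^ 2 := by
  have hpi := Real.pi_pos
  rw [grad_sq hz]
  unfold Q
  rw [← tsum_mul_left]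
  refine tsum_congr fun k => ?_
  field_simp

theorem cont_Q_kk (hf : ContDiffOn ℝ ∞ (fun z : ℝ × V => f z.1 z.2) (Ico 0 T ×ˢ univ))
    (hp : ∀ t ∈ Ico 0 T, SP (f t)) : ContinuousOn (fun t => Q kk (f t)) (Ico 0 T) := by
  have h1 : ContinuousOn (fun t => (4 * Real.pi ^ 2)⁻¹ * ∑ i, ∫ x in cube, pd i (f t) x ^ 2)
      (Ico 0 T) := by
    refine continuousOn_const.mul (continuousOn_finsetSum _ fun i _ => ?_)
    exact continuousOn_int (F := fun t x => pd i (f t) x ^ 2)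
      (((contDiffOn_pd hf i).continuousOn).pow 2)
  exact h1.congr fun t ht => Q_kk_eq (hp t ht)

theorem cont_Q_kk_dt (hf : ContDiffOn ℝ ∞ (fun z : ℝ × V => f z.1 z.2) (Ico 0 T ×ˢ univ))
    (hp : ∀ t ∈ Ico 0 T, SP (f t)) : ContinuousOn (fun t => Q kk (dt f t)) (Ioo 0 T) := by
  have h1 : ContinuousOn (fun t => (4 * Real.pi ^ 2)⁻¹ * ∑ i, ∫ x in cube, pd i (dt f t) x ^ 2)
      (Ioo 0 T) := by
    refine continuousOn_const.mul (continuousOn_finsetSum _ fun i _ => ?_)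
    intro t ht
    have h2 : ContDiffOn ℝ 1 (fun z : ℝ × V => pd i (dt f z.1) z.2 ^ 2) (Ioo 0 T ×ˢ univ) := by
      have h0 := contDiffOn_dt (f := fun s => pd i (f s)) (contDiffOn_pd hf i)
      have h3 : ContDiffOn ℝ 1 (fun z : ℝ × V => dt (fun s => pd i (f s)) z.1 z.2 ^ 2)
          (Ioo 0 T ×ˢ univ) := (h0.of_le (by norm_cast)).pow 2
      refine h3.congr fun z hz => ?_
      rw [dt_pd hf hz.1]
    exact (hasDerivAt_int (F := fun t x => pd i (dt f t) x ^ 2) h2 ht).continuousAt.continuousWithinAt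
  exact h1.congr fun t ht => Q_kk_eq (sp_dt' hf hp ht)

/-- The derivative of the square of the norm of order `1/2`. -/
theorem hasDerivAt_Q (hf : ContDiffOn ℝ ∞ (fun z : ℝ × V => f z.1 z.2) (Ico 0 T ×ˢ univ))
    (hp : ∀ t ∈ Ico 0 T, SP (f t)) {t : ℝ} (ht : t ∈ Ioo 0 T) :
    HasDerivAt (fun s => Q kn (f s)) (2 * Bf (dt f t) (f t)) t := by
  obtain ⟨c, hc0, hc⟩ := exists_kap
  obtain ⟨a, ha1, ha2⟩ := exists_between ht.1
  obtain ⟨b, hb1, hb2⟩ := exists_between ht.2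
  have hsub : Icc a b ⊆ Ioo 0 T := fun s hs => ⟨ha1.trans_le hs.1, hs.2.trans_lt hb2⟩
  have hI : ∀ s ∈ Ioo 0 T, s ∈ Ico 0 T := fun s hs => ⟨hs.1.le, hs.2⟩
  have hcont : ContinuousOn (fun s => Real.sqrt (Q kk (dt f s)) * Real.sqrt (Q kk (f s)))
      (Icc a b) :=
    (((cont_Q_kk_dt hf hp).mono hsub).sqrt).mul
      (((cont_Q_kk hf hp).mono fun s hs => hI s (hsub hs)).sqrt)
  obtain ⟨C, hC⟩ := isCompact_Icc.exists_bound_of_continuousOn hcont
  have key := (hasDerivAt_integral_of_dominated_loc_of_deriv_le (s := Icc a b)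
    (F := fun s y => ∫ x in cube, dl y (f s) x * dl y (f s) x)
    (F' := fun s y => 2 * ∫ x in cube, dl y (dt f s) x * dl y (f s) x)
    (bound := fun y => 2 * C * hh y) (μ := kap) (x₀ := t) (Icc_mem_nhds ha2 hb1)
    ?_ ?_ ?_ ?_ ?_ ?_).2
  · have h1 : HasDerivAt (fun s => c⁻¹ * ∫ y, (∫ x in cube, dl y (f s) x * dl y (f s) x) ∂kap)
        (c⁻¹ * ∫ y, 2 * (∫ x in cube, dl y (dt f t) x * dl y (f t) x) ∂kap) t :=
      key.const_mul c⁻¹
    have h2 : c⁻¹ * ∫ y, 2 * (∫ x in cube, dl y (dt f t) x * dl y (f t) x) ∂kap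
        = 2 * Bf (dt f t) (f t) := by
      rw [integral_const_mul, (int_E hc (sp_dt' hf hp ht) (hp t (hI t ht))).2]
      field_simp
    rw [h2] at h1
    refine h1.congr_of_eventuallyEq ?_
    filter_upwards [Ioo_mem_nhds ht.1 ht.2] with s hs
    rw [(int_E hc (hp s (hI s hs)) (hp s (hI s hs))).2, Bf_self]
    field_simp
  · filter_upwards [Ioo_mem_nhds ht.1 ht.2] with s hs
    exact (int_E hc (hp s (hI s hs)) (hp s (hI s hs))).1.1
  · exact (int_E hc (hp t (hI t ht)) (hp t (hI t ht))).1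
  · exact ((int_E hc (sp_dt' hf hp ht) (hp t (hI t ht))).1.const_mul 2).1
  · refine Filter.Eventually.of_forall fun y s hs => ?_
    have hs' := hsub hs
    have h1 := abs_dl_le (sp_dt' hf hp hs') (hp s (hI s hs')) y
    have h2 := hC s hs
    rw [Real.norm_of_nonneg (by positivity)] at h2
    rw [norm_mul, Real.norm_eq_abs, Real.norm_eq_abs, abs_two]
    have h3 := mul_le_mul_of_nonneg_left h2 (hh_nonneg y)
    linarith
  · exact (hh_int hc).const_mul _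
  · refine Filter.Eventually.of_forall fun y s hs => ?_
    have hs' := hsub hs
    have hd1 : ContDiffOn ℝ 1 (fun z : ℝ × V => f z.1 z.2) (Ioo 0 T ×ˢ univ) :=
      mono_Ioo hf (by norm_cast)
    have hd2 : ContDiffOn ℝ 1 (fun z : ℝ × V => f z.1 (z.2 - y)) (Ioo 0 T ×ˢ univ) := by
      have hm : ContDiff ℝ 1 (fun z : ℝ × V => ((z.1, z.2 - y) : ℝ × V)) :=
        contDiff_fst.prodMk (contDiff_snd.sub contDiff_const)
      exact hd1.comp (f := fun z : ℝ × V => ((z.1, z.2 - y) : ℝ × V)) hm.contDiffOn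
        fun z hz => ⟨hz.1, mem_univ _⟩
    have hd3 : ContDiffOn ℝ 1 (fun z : ℝ × V => dl y (f z.1) z.2 * dl y (f z.1) z.2)
        (Ioo 0 T ×ˢ univ) := (hd1.sub hd2).mul (hd1.sub hd2)
    have h1 := hasDerivAt_int (F := fun s x => dl y (f s) x * dl y (f s) x) hd3 hs'
    refine h1.congr_deriv ?_
    rw [← integral_const_mul]
    congr 1
    funext x
    have e1 : HasDerivAt (fun s => dl y (f s) x) (dl y (dt f s) x) s :=
      (hasDerivAt_dt hf hs' x).sub (hasDerivAt_dt hf hs' (x - y))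
    have e2 := (e1.mul e1).deriv
    have e3 : deriv (fun s => dl y (f s) x * dl y (f s) x) s
        = dl y (dt f s) x * dl y (f s) x + dl y (f s) x * dl y (dt f s) x := e2
    rw [e3]
    ring

end Pool.Agent.V1191.NS
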