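import Pool.Agent.V1191.NS.Fin

/-!
Every smooth periodic field without divergence is the sum of two helical fields.
-/

open MeasureTheory Set Filter Topology
open scoped ContDiff ENNReal

namespace Pool.Agent.V1191.NS

open H459R3.NS Pool.Agent.W12.MD.R0

/-- the symbol `1 / |k|` -/
noncomputable def ki (k : K3) : ℝ := (kn k)⁻¹

theorem lin_ki : Lin ki := by
  refine lin_of_bdd (C := 1) zero_le_one fun k => ?_
  by_cases hk : k = 0
  · simp [ki, hk, kn_zero]
  · have h1 : 1 ≤ kn k := by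
      have : ∃ i, k i ≠ 0 := by
        by_contra h
        push Not at h
        exact hk (funext h)
      obtain ⟨i, hi⟩ := this
      refine le_trans ?_ (abs_le_kn k i)
      exact_mod_cast Int.one_le_abs hi
    unfold ki
    rw [abs_of_pos (inv_pos.2 (by linarith))]
    exact inv_le_one_of_one_le₀ h1

/-- the helical part -/
noncomputable def hp (s : ℝ) (v : Fin 3 → V → ℝ) (m : Fin 3) (x : V) : ℝ :=
  (1 / 2) * (v m x + (s / (2 * Real.pi)) * Mlt ki (crl v m) x)

variable {s : ℝ} {v : Fin 3 → V → ℝ}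

theorem sp_hp (hv : ∀ i, SP (v i)) (m : Fin 3) : SP (hp s v m) := by
  unfold hp
  exact (spconst (1 / 2)).mul ((hv m).add ((spconst (s / (2 * Real.pi))).mul
    (sp_Mlt lin_ki (sp_crl hv m))))

theorem fr_hp (hv : ∀ i, SP (v i)) (m : Fin 3) (k : K3) :
    fr (hp s v m) k = (1 / 2) * (fr (v m) k + s * (ki k * (Complex.I
      * ((k (m + 1) : ℂ) * fr (v (m + 2)) k - (k (m + 2) : ℂ) * fr (v (m + 1)) k)))) := by
  have hpi : (Real.pi : ℂ) ≠ 0 := by exact_mod_cast Real.pi_pos.ne'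
  have h1 : SP (fun x => (s / (2 * Real.pi)) * Mlt ki (crl v m) x) :=
    (spconst (s / (2 * Real.pi))).mul (sp_Mlt lin_ki (sp_crl hv m))
  have e : hp s v m = fun x => (1 / 2) * (v m x + (s / (2 * Real.pi)) * Mlt ki (crl v m) x) := rfl
  rw [e, frcmul, fradd (hv m) h1, frcmul, fr_Mlt lin_ki (fun k => by unfold ki; rw [kn_neg])
    (sp_crl hv m), fr_crl hv m]
  push_cast
  field_simp

theorem helical_hp (hs : s = 1 ∨ s = -1) (hv : ∀ i, SP (v i))
    (hdiv : ∀ x, ∑ i, pd i (v i) x = 0) : Helical s (fun x m => hp s v m x) := by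
  refine ⟨⟨contDiff_pi.2 fun m => (sp_hp hv m).smooth, fun i x => funext fun m =>
    (sp_hp hv m).per i x⟩, fun k m => ?_⟩
  have hs2 : (s : ℂ) * s = 1 := by
    rcases hs with h | h <;> rw [h] <;> norm_num
  rw [crossc]
  have hkk : (Real.sqrt (∑ l, (k l : ℝ) ^ 2) : ℂ) = (kn k : ℂ) := rfl
  rw [hkk, fr_hp hv, fr_hp hv, fr_hp hv]
  by_cases hk : k = 0
  · subst hk
    simp [kn_zero]
  have hkn : (kn k : ℂ) ≠ 0 := by exact_mod_cast (kn_pos hk).ne'
  have hki : (ki k : ℂ) * kn k = 1 := by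
    unfold ki
    push_cast
    exact inv_mul_cancel₀ hkn
  have hsq : (kn k : ℂ) ^ 2 = ∑ l, (k l : ℂ) ^ 2 := by
    have := kn_sq k
    unfold kk at this
    exact_mod_cast this
  have hd : ∑ i, (k i : ℂ) * fr (v i) k = 0 := by
    have h1 : fr (fun x => ∑ i, pd i (v i) x) k = 0 := by
      have : (fun x => ∑ i, pd i (v i) x) = fun _ => 0 := funext hdiv
      rw [this]
      exact fr_zero k
    have h2 : fr (fun x => ∑ i, pd i (v i) x) k = ∑ i, fr (pd i (v i)) k :=
      fr_sum (fun i _ => (hv i).pd i) k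
    rw [h2] at h1
    simp_rw [fun i => fr_pd (hv i) i] at h1
    unfold D at h1
    have h3 : (2 * Real.pi * Complex.I : ℂ) * ∑ i, (k i : ℂ) * fr (v i) k = 0 := by
      rw [Finset.mul_sum, ← h1]
      exact Finset.sum_congr rfl fun i _ => by ring
    refine (mul_eq_zero.1 h3).resolve_left ?_
    have := Real.pi_ne_zero
    simp [this]
  have hI : Complex.I * Complex.I = -1 := Complex.I_mul_I
  have f1 : (0 : Fin 3) + 1 = 1 := rfl
  have f2 : (0 : Fin 3) + 2 = 2 := rfl
  have f3 : (1 : Fin 3) + 1 = 2 := rfl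
  have f4 : (1 : Fin 3) + 2 = 0 := rfl
  have f5 : (2 : Fin 3) + 1 = 0 := rfl
  have f6 : (2 : Fin 3) + 2 = 1 := rfl
  rw [Fin.sum_univ_three] at hd hsq
  set a := fr (v 0) k
  set b := fr (v 1) k
  set c := fr (v 2) k
  set κ := (ki k : ℂ)
  set n := (kn k : ℂ)
  set x := (k 0 : ℂ)
  set y := (k 1 : ℂ)
  set z := (k 2 : ℂ)
  have hn2 : κ * (x ^ 2 + y ^ 2 + z ^ 2) = n := by
    rw [← hsq]
    linear_combination n * hki
  fin_cases m
  · simp only [Fin.zero_eta, f1, f2, f3, f4, f5, f6]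
    linear_combination (1 / 2 * (s : ℂ) * κ * (y * (x * b - y * a)
      - z * (z * a - x * c))) * hI - (1 / 2 * (s : ℂ) * κ * x) * hd
      + (1 / 2 * (s : ℂ) * a) * hn2
      - (1 / 2 * Complex.I * (y * c - z * b) * n * κ) * hs2
      - (1 / 2 * Complex.I * (y * c - z * b)) * hki
  · simp only [Fin.mk_one, f1, f2, f3, f4, f5, f6]
    linear_combination (1 / 2 * (s : ℂ) * κ * (z * (y * c - z * b)
      - x * (x * b - y * a))) * hI - (1 / 2 * (s : ℂ) * κ * y) * hd
      + (1 / 2 * (s : ℂ) * b) * hn2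
      - (1 / 2 * Complex.I * (z * a - x * c) * n * κ) * hs2
      - (1 / 2 * Complex.I * (z * a - x * c)) * hki
  · simp only [Fin.reduceFinMk, f1, f2, f3, f4, f5, f6]
    linear_combination (1 / 2 * (s : ℂ) * κ * (x * (z * a - x * c)
      - y * (y * c - z * b))) * hI - (1 / 2 * (s : ℂ) * κ * z) * hd
      + (1 / 2 * (s : ℂ) * c) * hn2
      - (1 / 2 * Complex.I * (x * b - y * a) * n * κ) * hs2
      - (1 / 2 * Complex.I * (x * b - y * a)) * hki

theorem exists_helical (hs : s = 1 ∨ s = -1) {v : V → V} (hv : SPV v)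
    (hdiv : ∀ x, ∑ i, pd i (fun y => v y i) x = 0) :
    ∃ g f : V → V, Helical s g ∧ Helical (-s) f ∧ ∀ x, v x = g x + f x := by
  have hsp : ∀ i, SP (fun y => v y i) := fun i => hv.sp i
  refine ⟨_, _, helical_hp hs hsp hdiv, helical_hp (s := -s) (by
    rcases hs with h | h
    · right; rw [h]
    · left; rw [h]; norm_num) hsp hdiv, fun x => ?_⟩
  funext m
  simp only [Pi.add_apply]
  unfold hp
  ring

end Pool.Agent.V1191.NS
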