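import Pool.Agent.V1191.NS.Evl

/-!
Gronwall's inequality with a differential inequality at almost every time, and the differential
inequality of the norm of order one half.
-/

open MeasureTheory Set Filter Topology
open scoped ContDiff ENNReal

namespace Pool.Agent.V1191.NS

open H459R3.NS Pool.Agent.W12.MD.R0

theorem sub_le_integral_ae {a b : ℝ} (hab : a ≤ b) {g g' φ : ℝ → ℝ}
    (hd : ∀ x ∈ Icc a b, HasDerivAt g (g' x) x) (hφ : IntegrableOn φ (Icc a b))
    (hle : ∀ᵐ x ∂(volume.restrict (Icc a b)), g' x ≤ φ x) :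
    g b - g a ≤ ∫ y in a..b, φ y := by
  set ψ : ℝ → ℝ := fun x => max (g' x) (φ x) with hψ
  have he : ψ =ᵐ[volume.restrict (Icc a b)] φ := by
    filter_upwards [hle] with x hx
    simp only [hψ]
    exact max_eq_right hx
  have hψi : IntegrableOn ψ (Icc a b) := Integrable.congr hφ he.symm
  have h := intervalIntegral.sub_le_integral_of_hasDeriv_right_of_le hab
    (fun x hx => (hd x hx).continuousAt.continuousWithinAt)
    (fun x hx => (hd x (Ioo_subset_Icc_self hx)).hasDerivWithinAt) hψi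
    (fun x _ => le_max_left _ _)
  refine h.trans (le_of_eq ?_)
  rw [intervalIntegral.integral_of_le hab, intervalIntegral.integral_of_le hab]
  exact integral_congr_ae (ae_restrict_of_ae_restrict_of_subset Ioc_subset_Icc_self he)

theorem gronwall_ae {T t0 m : ℝ} {X Y R k : ℝ → ℝ} (ht0 : t0 ∈ Ioo 0 T) (hm : 0 < m)
    (hX0 : ∀ t, 0 ≤ X t) (hY0 : ∀ t, 0 ≤ Y t) (hd : ∀ t ∈ Ioo 0 T, HasDerivAt X (R t) t)
    (hY : ContinuousOn Y (Ioo 0 T)) (hk : IntegrableOn k (Ioo 0 T))
    (hle : ∀ᵐ t ∂(volume.restrict (Ioo 0 T)), 0 ≤ k t ∧ R t ≤ -(m * Y t) + k t * X t) :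
    ∃ K : ℝ, 0 ≤ K ∧ ∀ t ∈ Ico t0 T, X t ≤ K ∧ ∫ s in t0..t, Y s ≤ K := by
  set K0 : ℝ := ∫ s in Ioo 0 T, k s with hK0
  have hK00 : 0 ≤ K0 := by
    refine integral_nonneg_of_ae ?_
    filter_upwards [hle] with t ht using ht.1
  set M : ℝ := (X t0 + 1) * Real.exp K0 with hM
  have hM0 : 0 ≤ M := by
    have := hX0 t0
    positivity
  have hsub : ∀ t ∈ Ico t0 T, Icc t0 t ⊆ Ioo 0 T := fun t ht s hs =>
    ⟨ht0.1.trans_le hs.1, hs.2.trans_lt ht.2⟩
  have hki : ∀ t ∈ Ico t0 T, IntegrableOn k (Icc t0 t) := fun t ht => hk.mono_set (hsub t ht)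
  have hkI : ∀ t ∈ Ico t0 T, ∫ s in t0..t, k s ≤ K0 := by
    intro t ht
    rw [intervalIntegral.integral_of_le ht.1]
    refine setIntegral_mono_set hk ?_ (Ioc_subset_Icc_self.trans (hsub t ht)).eventuallyLE
    filter_upwards [hle] with s hs using hs.1
  have hkint : ∀ t ∈ Ico t0 T, IntervalIntegrable k volume t0 t := fun t ht =>
    (intervalIntegrable_iff_integrableOn_Icc_of_le ht.1).2 (hki t ht)
  have hXM : ∀ t ∈ Ico t0 T, X t ≤ M := by
    intro t ht
    have hpos : ∀ s, 0 < X s + 1 := fun s => by linarith [hX0 s]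
    have h1 := sub_le_integral_ae (g := fun s => Real.log (X s + 1))
      (g' := fun s => R s / (X s + 1)) ht.1
      (fun s hs => ((hd s (hsub t ht hs)).add_const 1).log (hpos s).ne') (hki t ht) (by
        filter_upwards [ae_restrict_of_ae_restrict_of_subset (hsub t ht) hle] with s hs
        rw [div_le_iff₀ (hpos s)]
        have h2 : 0 ≤ m * Y s := mul_nonneg hm.le (hY0 s)
        nlinarith [hs.1, hs.2])
    have h2 : Real.log (X t + 1) ≤ Real.log (X t0 + 1) + K0 := by
      linarith [hkI t ht]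
    have h3 : X t + 1 ≤ M := by
      calc X t + 1 = Real.exp (Real.log (X t + 1)) := (Real.exp_log (hpos t)).symm
        _ ≤ Real.exp (Real.log (X t0 + 1) + K0) := Real.exp_le_exp.2 h2
        _ = M := by rw [Real.exp_add, Real.exp_log (hpos t0)]
    linarith
  refine ⟨max M ((X t0 + M * K0) / m), le_max_of_le_left hM0, fun t ht =>
    ⟨(hXM t ht).trans (le_max_left _ _), ?_⟩⟩
  refine le_trans ?_ (le_max_right _ _)
  have hYc : ContinuousOn Y (Icc t0 t) := hY.mono (hsub t ht)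
  have hYi : IntegrableOn Y (Icc t0 t) := hYc.integrableOn_Icc
  have hYint : IntervalIntegrable Y volume t0 t :=
    (intervalIntegrable_iff_integrableOn_Icc_of_le ht.1).2 hYi
  have h1 := sub_le_integral_ae (g := X) (g' := R) (φ := fun s => -(m * Y s) + M * k s) ht.1
    (fun s hs => hd s (hsub t ht hs)) (((hYi.const_mul m).neg).add ((hki t ht).const_mul M)) (by
      filter_upwards [ae_restrict_of_ae_restrict_of_subset (hsub t ht) hle,
        ae_restrict_mem measurableSet_Icc] with s hs hs2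
      refine hs.2.trans ?_
      have := mul_le_mul_of_nonneg_left (hXM s ⟨hs2.1, hs2.2.trans_lt ht.2⟩) hs.1
      linarith)
  have j1 : IntervalIntegrable (fun s => -(m * Y s)) volume t0 t := (hYint.const_mul m).neg
  have j2 : IntervalIntegrable (fun s => M * k s) volume t0 t := (hkint t ht).const_mul M
  rw [intervalIntegral.integral_add j1 j2, intervalIntegral.integral_neg,
    intervalIntegral.integral_const_mul, intervalIntegral.integral_const_mul] at h1
  rw [le_div_iff₀ hm]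
  have h2 := mul_le_mul_of_nonneg_left (hkI t ht) hM0
  have h3 := hX0 t
  linarith

/-! ### The solution -/

variable {ν T : ℝ} {u : ℝ → V → V} {p : ℝ → V → ℝ}

/-- the components at time `t` -/
def cm (u : ℝ → V → V) (t : ℝ) (i : Fin 3) (y : V) : ℝ := u t y i

theorem cm_hasDerivAt (h : IsSol ν T u p) {t : ℝ} (ht : t ∈ Ioo 0 T) :
    HasDerivAt (fun s => XX (cm u s)) (∑ i, 2 * Bf (dt (fun s y => u s y i) t) (cm u t i)) t := by
  unfold XX
  refine HasDerivAt.fun_sum fun i _ => ?_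
  exact hasDerivAt_Q (f := fun s y => u s y i) (h.smooth_c i) (fun s hs => h.sp hs i) ht

theorem cont_YY (h : IsSol ν T u p) : ContinuousOn (fun t => YY (cm u t)) (Ioo 0 T) := by
  have hpi := Real.pi_pos
  have h1 : ContinuousOn (fun t => (4 * Real.pi ^ 2)⁻¹ * ∑ i, ∑ j, Q kn (pd j (cm u t i)))
      (Ioo 0 T) := by
    refine continuousOn_const.mul (continuousOn_finsetSum _ fun i _ =>
      continuousOn_finsetSum _ fun j _ => fun t ht => ?_)
    exact (hasDerivAt_Q (f := fun s => pd j (cm u s i))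
      (contDiffOn_pd (f := fun s => cm u s i) (h.smooth_c i) j)
      (fun s hs => (h.sp hs i).pd j) ht).continuousAt.continuousWithinAt
  refine h1.congr fun t ht => ?_
  unfold YY
  beta_reduce
  rw [Finset.mul_sum]
  refine Finset.sum_congr rfl fun i _ => ?_
  rw [sum_Q_pd pol_kn (z := cm u t i) (h.sp ⟨ht.1.le, ht.2⟩ i)]
  field_simp

theorem Lam_zero : Lam (fun _ => 0) = fun _ => 0 := by
  refine sp_ext (sp_Lam (spconst 0)) (spconst 0) fun k => ?_
  have h0 : fr (fun _ => (0 : ℝ)) k = 0 := by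
    unfold fr fc
    simp
  rw [fr_Lam (spconst 0), h0, mul_zero]

theorem int_Lam_lap {z : V → ℝ} (hz : SP z) :
    ∫ x in cube, lap z x * Lam z x = -(4 * Real.pi ^ 2 * Q (fun k => kn k * kk k) z) := by
  rw [int_lap_mul hz (sp_Lam hz), ← sum_Q_pd pol_kn hz]
  congr 1
  refine Finset.sum_congr rfl fun j _ => ?_
  rw [pd_Lam hz, ← Bf_self, ← int_Lam (hz.pd j) (hz.pd j)]
  congr 1
  funext x
  ring

/-- The derivative of the square of the norm of order `1/2`. -/
theorem deriv_eq (h : IsSol ν T u p) {t : ℝ} (ht : t ∈ Ioo 0 T) :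
    ∑ i, 2 * Bf (dt (fun s y => u s y i) t) (cm u t i)
      = -(8 * Real.pi ^ 2 * ν * YY (cm u t))
        + 2 * -∑ i, ∑ j, I3 (cm u t j) (pd j (cm u t i)) (Lam (cm u t i)) := by
  have hI : t ∈ Ico 0 T := ⟨ht.1.le, ht.2⟩
  have hu : ∀ i, SP (cm u t i) := fun i => h.sp hI i
  have hdiv : ∀ x, ∑ i, pd i (cm u t i) x = 0 := h.divfree t hI
  have hdivL : ∀ x, ∑ i, pd i (Lam (cm u t i)) x = 0 := by
    intro x
    have e1 : ∀ i, pd i (Lam (cm u t i)) = Lam (pd i (cm u t i)) := fun i => pd_Lam (hu i) i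
    have e2 : Lam (fun x => (pd 0 (cm u t 0) x + pd 1 (cm u t 1) x) + pd 2 (cm u t 2) x)
        = fun x => (Lam (pd 0 (cm u t 0)) x + Lam (pd 1 (cm u t 1)) x)
          + Lam (pd 2 (cm u t 2)) x := by
      rw [Lam_add (((hu 0).pd 0).add ((hu 1).pd 1)) ((hu 2).pd 2),
        Lam_add ((hu 0).pd 0) ((hu 1).pd 1)]
    have e3 : (fun x => (pd 0 (cm u t 0) x + pd 1 (cm u t 1) x) + pd 2 (cm u t 2) x)
        = fun _ => 0 := by
      funext x
      have := hdiv x
      rw [Fin.sum_univ_three] at this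
      exact this
    rw [e3, Lam_zero] at e2
    simp_rw [e1, Fin.sum_univ_three]
    exact (congrFun e2 x).symm
  have hpr := int_press (v := fun i => Lam (cm u t i)) (fun i => sp_Lam (hu i)) hdivL (h.sp_p hI)
  have hc : ∀ i, SP (conv (cm u t) i) := fun i => sp_conv hu i
  have h1 : ∀ i, Bf (dt (fun s y => u s y i) t) (cm u t i)
      = -(4 * Real.pi ^ 2 * ν * Q (fun k => kn k * kk k) (cm u t i))
        - (∑ j, I3 (cm u t j) (pd j (cm u t i)) (Lam (cm u t i)))
        - ∫ x in cube, Lam (cm u t i) x * pd i (p t) x := by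
    intro i
    rw [Bf_comm, ← int_Lam (hu i) (h.sp_dt ht i)]
    have e1 : ∀ x, Lam (cm u t i) x * dt (fun s y => u s y i) t x
        = ν * (lap (cm u t i) x * Lam (cm u t i) x) - Lam (cm u t i) x * conv (cm u t) i x
          - Lam (cm u t i) x * pd i (p t) x := by
      intro x
      rw [h.dt_eq ht i x]
      unfold cm
      ring
    simp_rw [e1]
    have i1 : IntegrableOn (fun x => ν * (lap (cm u t i) x * Lam (cm u t i) x)) cube :=
      ((hu i).lap.mul (sp_Lam (hu i))).int.const_mul ν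
    have i2 : IntegrableOn (fun x => Lam (cm u t i) x * conv (cm u t) i x) cube :=
      ((sp_Lam (hu i)).mul (hc i)).int
    have i3 : IntegrableOn (fun x => Lam (cm u t i) x * pd i (p t) x) cube :=
      ((sp_Lam (hu i)).mul ((h.sp_p hI).pd i)).int
    have i12 : IntegrableOn (fun x => ν * (lap (cm u t i) x * Lam (cm u t i) x)
        - Lam (cm u t i) x * conv (cm u t) i x) cube := i1.sub i2
    rw [integral_sub i12 i3, integral_sub i1 i2, integral_const_mul, int_Lam_lap (hu i)]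
    have e2 : (∫ x in cube, Lam (cm u t i) x * conv (cm u t) i x)
        = ∑ j, I3 (cm u t j) (pd j (cm u t i)) (Lam (cm u t i)) := by
      unfold I3
      rw [← integral_finsetSum _ fun j _ => (((hu j).mul ((hu i).pd j)).mul (sp_Lam (hu i))).int]
      congr 1
      funext x
      unfold conv
      rw [Finset.mul_sum]
      exact Finset.sum_congr rfl fun j _ => by ring
    rw [e2]
    ring
  simp_rw [h1]
  rw [← Finset.mul_sum, Finset.sum_sub_distrib, Finset.sum_sub_distrib, hpr,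
    Finset.sum_neg_distrib, ← Finset.mul_sum]
  unfold YY
  ring

theorem absorb {ν B X Y : ℝ} (hν : 0 < ν) (hX : 0 ≤ X) (hY : 0 ≤ Y) :
    1200 * (2 * Real.pi * (ν / 400) * Y + B * (Real.sqrt X * Real.sqrt Y))
      ≤ 4 * Real.pi ^ 2 * ν * Y + 20000 / ν * B ^ 2 * X := by
  have hp := Real.pi_gt_three
  have s1 := Real.sq_sqrt hX
  have s2 := Real.sq_sqrt hY
  set x := Real.sqrt X
  set y := Real.sqrt Y
  have h1 : 1200 * (2 * Real.pi * (ν / 400) * Y) ≤ 2 * Real.pi ^ 2 * ν * Y := by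
    have : 0 ≤ ν * Y := by positivity
    nlinarith [mul_nonneg this (by nlinarith : 0 ≤ 2 * Real.pi ^ 2 - 6 * Real.pi)]
  have h2 : 1200 * (B * (x * y)) ≤ 18 * ν * y ^ 2 + 20000 / ν * B ^ 2 * x ^ 2 := by
    have e : 18 * ν * y ^ 2 + 20000 / ν * B ^ 2 * x ^ 2 - 1200 * (B * (x * y))
        = (2 / ν) * (3 * ν * y - 100 * (B * x)) ^ 2 := by
      field_simp
      ring
    have : 0 ≤ (2 / ν) * (3 * ν * y - 100 * (B * x)) ^ 2 := by positivity
    linarith
  have h3 : 18 * ν * y ^ 2 ≤ 2 * Real.pi ^ 2 * ν * Y := by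
    rw [s2]
    have : 0 ≤ ν * Y := by positivity
    nlinarith
  rw [s1] at h2
  linarith

/-- The differential inequality. -/
theorem diff_ineq (h : IsSol ν T u p) (hν : 0 < ν) {t : ℝ} (ht : t ∈ Ioo 0 T) {s B : ℝ}
    {g f : Fin 3 → V → ℝ} (hd : Dec s (cm u t) g f) (hB : 0 < B)
    (hb : ∀ i, Bdd (ν / 400) B (g i)) :
    ∑ i, 2 * Bf (dt (fun s y => u s y i) t) (cm u t i)
      ≤ -(4 * Real.pi ^ 2 * ν * YY (cm u t)) + 20000 / ν * B ^ 2 * XX (cm u t) := by
  rw [deriv_eq h ht, hd.conv_eq]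
  have h1 := (abs_le.1 (hd.abs_NN_le (by positivity) hB hb)).2
  have h2 := absorb (B := B) hν (XX_nonneg (cm u t)) (YY_nonneg (cm u t))
  unfold EE at h1
  linarith

end Pool.Agent.V1191.NS
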