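import Pool.Agent.V1191.NS.Defs
import Pool.Agent.V1191.NS.Grn
import Pool.Agent.H459R3.NS.Iso
import Pool.Agent.TH811.SPD.Str9

/-!
The criterion for one helical component.
-/

open MeasureTheory Set Filter Topology
open scoped ContDiff ENNReal

namespace Pool.Agent.V1191.NS

open H459R3.NS Pool.Agent.W12.MD.R0 Pool.Agent.TH811.SPD Pool.Agent.W268.NS

theorem crossc (a b : Fin 3 → ℂ) (m : Fin 3) :
    crossProduct a b m = a (m + 1) * b (m + 2) - a (m + 2) * b (m + 1) := by
  rw [cross_apply]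
  fin_cases m
  · rfl
  · rfl
  · rfl

theorem Helical.crl {s : ℝ} {g : V → V} (h : Helical s g) (i : Fin 3) :
    crl (fun i x => g x i) i = fun x => s * (2 * Real.pi) * Lam (fun x => g x i) x := by
  have hg : ∀ i, SP (fun x => g x i) := fun i => h.1.sp i
  have hc : SP (fun x => s * (2 * Real.pi) * Lam (fun x => g x i) x) :=
    (spconst (s * (2 * Real.pi))).mul (sp_Lam (hg i))
  refine sp_ext (sp_crl hg i) hc fun k => ?_
  rw [fr_crl hg i, frcmul, fr_Lam (hg i)]
  have h1 := h.2 k i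
  rw [crossc] at h1
  unfold kn kk
  push_cast
  linear_combination (2 * Real.pi : ℂ) * h1

theorem exists_dec {s : ℝ} (hs : s = 1 ∨ s = -1) {v g f : V → V} (hg : Helical s g)
    (hf : Helical (-s) f) (hv : ∀ x, v x = g x + f x)
    (hdiv : ∀ x, ∑ i, pd i (fun y => v y i) x = 0) :
    Dec s (fun i x => v x i) (fun i x => g x i) (fun i x => f x i) where
  s2 := by rcases hs with h | h <;> rw [h] <;> norm_num
  hg := fun i => hg.1.sp i
  hf := fun i => hf.1.sp i
  dec := fun i => by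
    funext x
    rw [hv x]
    rfl
  cg := fun i => hg.crl i
  cf := fun i => by
    rw [hf.crl i]
    funext x
    ring
  dv := hdiv

theorem energy_bdd {ν T : ℝ} {u : ℝ → V → V} {P : ℝ → V → ℝ} (h : IsSol ν T u P) (hν : 0 < ν) :
    ∃ E : ℝ, 0 ≤ E ∧ ∀ t ∈ Ico 0 T, energy (u t) ≤ E :=
  ⟨energy (u 0), energy_nonneg _, fun _ ht => h.energy_le hν ht⟩

theorem stretch_zero' : stretch (fun _ => 0) = 0 := by
  unfold stretch pd
  simp

/-- From the integral of the square of the enstrophy to bounded velocity. -/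
theorem bounded_of_ens {ν T : ℝ} (hν : 0 < ν) {u : ℝ → V → V} {P : ℝ → V → ℝ}
    (h : IsSol ν T u P) (hi : IntegrableOn (fun t => enstrophy (u t) ^ 2) (Ioo 0 T)) :
    ∃ M, ∀ t ∈ Ico 0 T, ∀ x i, |u t x i| ≤ M := by
  have h6 : ((6 : ℝ≥0∞)⁻¹).toReal = 1 / 6 := by
    rw [ENNReal.toReal_inv]
    norm_num
  obtain ⟨C, -, hC⟩ := serrin (p := 6) (by norm_num) (q := 4) (by rw [h6]; norm_num) hν
    (K := 0) le_rfl (lam := 0) (κ := 0) le_rfl (by norm_num)
  obtain ⟨C6, hC60, hC6⟩ := sobolev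
  obtain ⟨E, hE0, hE⟩ := energy_bdd h hν
  set β : ℝ → ℝ := fun t => C6 * Real.sqrt (enstrophy (u t) + energy (u t)) with hβ
  have hβ0 : ∀ t, 0 ≤ β t := fun t => mul_nonneg hC60 (Real.sqrt_nonneg _)
  have hβ4 : ∀ t, β t ^ (4 : ℝ) = C6 ^ 4 * (enstrophy (u t) + energy (u t)) ^ 2 := by
    intro t
    have h0 : 0 ≤ enstrophy (u t) + energy (u t) :=
      add_nonneg (enstrophy_nonneg _) (energy_nonneg _)
    rw [show (4 : ℝ) = ((4 : ℕ) : ℝ) by norm_num, Real.rpow_natCast]
    simp only [hβ]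
    rw [mul_pow, show Real.sqrt (enstrophy (u t) + energy (u t)) ^ 4
      = (Real.sqrt (enstrophy (u t) + energy (u t)) ^ 2) ^ 2 by ring, Real.sq_sqrt h0]
  have hens : ContinuousOn (fun t => enstrophy (u t)) (Ioo 0 T) :=
    h.enstrophy_continuousOn.mono Ioo_subset_Ico_self
  have hen : ContinuousOn (fun t => energy (u t)) (Ioo 0 T) :=
    h.energy_continuousOn.mono Ioo_subset_Ico_self
  have hβi : IntegrableOn (fun t => β t ^ (4 : ℝ)) (Ioo 0 T) := by
    simp_rw [hβ4]
    refine Integrable.const_mul ?_ _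
    have hdom : IntegrableOn (fun t => 2 * enstrophy (u t) ^ 2 + 2 * E ^ 2) (Ioo 0 T) :=
      (hi.const_mul 2).add (integrableOn_const (by simp))
    refine Integrable.mono' hdom
      ((hens.add hen).pow 2 |>.aestronglyMeasurable measurableSet_Ioo) ?_
    filter_upwards [ae_restrict_mem measurableSet_Ioo] with t ht
    rw [Real.norm_of_nonneg (sq_nonneg _)]
    have h1 := hE t ⟨ht.1.le, ht.2⟩
    have h2 := energy_nonneg (u t)
    nlinarith [sq_nonneg (enstrophy (u t) - energy (u t))]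
  refine (hC T 0 u P β (fun _ => 0) h le_rfl (fun t _ => ⟨hβ0 t, le_rfl⟩) hβi
    integrableOn_zero fun t ht => ?_).2
  have hI : t ∈ Ico 0 T := ⟨ht.1.le, ht.2⟩
  refine ⟨fun _ => 0, fun _ => 0, ∅, SPV.zero, SPV.zero, dimTwo_empty, fun i k _ => fr_zero k,
    ?_, ?_, ?_, ?_, fun i => ?_⟩
  · rw [enstrophy_zero]; simp
  · have : palin (fun _ => 0) = 0 := by
      unfold palin lap pd
      simp
    rw [this]; simp
  · rw [enstrophy_zero]; simp
  · rw [stretch_zero']; simp
  · have hsp : SP (fun x => u t x i) := h.sp hI i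
    have e : (fun x => u t x i - (fun _ : V => (0 : V)) x i - (fun _ : V => (0 : V)) x i)
        = fun x => u t x i := by
      funext x
      simp
    rw [e]
    refine (hC6 _ hsp).trans (ENNReal.ofReal_le_ofReal ?_)
    refine mul_le_mul_of_nonneg_left (Real.sqrt_le_sqrt (add_le_add ?_ ?_)) hC60
    · exact Finset.single_le_sum (f := fun i => ∑ j, ∫ x in cube, pd j (fun y => u t y i) x ^ 2)
        (fun i _ => Finset.sum_nonneg fun j _ => integral_nonneg fun x => sq_nonneg _)
        (Finset.mem_univ i)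
    · exact Finset.single_le_sum (f := fun i => ∫ x in cube, u t x i ^ 2)
        (fun i _ => integral_nonneg fun x => sq_nonneg _) (Finset.mem_univ i)

theorem ens_eq {v : V → V} (hv : ∀ i, SP (fun x => v x i)) :
    enstrophy v = 4 * Real.pi ^ 2 * ZZ (fun i x => v x i) := by
  unfold enstrophy ZZ
  rw [Finset.mul_sum]
  refine Finset.sum_congr rfl fun i _ => ?_
  rw [grad_sq (hv i)]
  unfold Q
  rw [← tsum_mul_left]
  exact tsum_congr fun k => by ring

/-- Boundedness from the differential inequality. -/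
theorem bounded_of_diff {ν T : ℝ} (hν : 0 < ν) {u : ℝ → V → V} {P : ℝ → V → ℝ}
    (h : IsSol ν T u P) {k : ℝ → ℝ} (hk : IntegrableOn k (Ioo 0 T))
    (hle : ∀ᵐ t ∂(volume.restrict (Ioo 0 T)), 0 ≤ k t ∧
      ∑ i, 2 * Bf (dt (fun s y => u s y i) t) (cm u t i)
        ≤ -(4 * Real.pi ^ 2 * ν * YY (cm u t)) + k t * XX (cm u t)) :
    ∃ M, ∀ t ∈ Ico 0 T, ∀ x i, |u t x i| ≤ M := by
  have hpi := Real.pi_pos
  rcases le_or_gt T 0 with hT | hT
  · exact ⟨0, fun t ht => absurd (ht.1.trans_lt ht.2) (not_lt.2 hT)⟩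
  have ht0 : T / 2 ∈ Ioo 0 T := ⟨by linarith, by linarith⟩
  obtain ⟨K, hK0, hK⟩ := gronwall_ae (m := 4 * Real.pi ^ 2 * ν) (X := fun t => XX (cm u t))
    (Y := fun t => YY (cm u t)) ht0 (by positivity) (fun t => XX_nonneg _) (fun t => YY_nonneg _)
    (fun t ht => cm_hasDerivAt h ht) (cont_YY h) hk hle
  have hens : ContinuousOn (fun t => enstrophy (u t) ^ 2) (Ico 0 T) :=
    h.enstrophy_continuousOn.pow 2
  refine bounded_of_ens hν h ?_
  -- the bound of the integral over `(T/2, t)`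
  set K2 : ℝ := 16 * Real.pi ^ 4 * K * K with hK2
  have hpt : ∀ t ∈ Ico (T / 2) T, enstrophy (u t) ^ 2 ≤ 16 * Real.pi ^ 4 * K * YY (cm u t) := by
    intro t ht
    have hI : t ∈ Ico 0 T := ⟨by linarith [ht.1], ht.2⟩
    rw [ens_eq fun i => h.sp hI i]
    have h1 := ZZ_le (u := cm u t) fun i => h.sp hI i
    have h2 := (hK t ht).1
    have h3 := ZZ_nonneg (cm u t)
    have h4 : ZZ (cm u t) ^ 2 ≤ XX (cm u t) * YY (cm u t) := by
      refine (pow_le_pow_left₀ h3 h1 2).trans (le_of_eq ?_)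
      rw [mul_pow, Real.sq_sqrt (XX_nonneg _), Real.sq_sqrt (YY_nonneg _)]
    have h5 : XX (cm u t) * YY (cm u t) ≤ K * YY (cm u t) :=
      mul_le_mul_of_nonneg_right h2 (YY_nonneg _)
    calc (4 * Real.pi ^ 2 * ZZ (cm u t)) ^ 2 = 16 * Real.pi ^ 4 * ZZ (cm u t) ^ 2 := by ring
      _ ≤ 16 * Real.pi ^ 4 * (K * YY (cm u t)) := by
          refine mul_le_mul_of_nonneg_left (h4.trans h5) (by positivity)
      _ = _ := by ring
  have hIoc : IntegrableOn (fun t => enstrophy (u t) ^ 2) (Ioc (T / 2) T) := by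
    refine integrableOn_Ioc_of_intervalIntegral_norm_bounded_right (l := atTop)
      (b := fun n : ℕ => T - T / 2 / (n + 1)) (I := K2) (fun n => ?_) ?_ ?_
    · have hn : (0 : ℝ) < T / 2 / (n + 1) := by positivity
      refine (ContinuousOn.integrableOn_Icc ?_).mono_set Ioc_subset_Icc_self
      exact hens.mono fun s hs => ⟨by linarith [hs.1], by linarith [hs.2]⟩
    · have h1 : Tendsto (fun n : ℕ => T / 2 / ((n : ℝ) + 1)) atTop (𝓝 0) :=
        tendsto_const_div_atTop_nhds_zero_nat (T / 2) |>.comp (tendsto_add_atTop_nat 1)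
          |>.congr fun n => by simp
      simpa using h1.const_sub T
    · refine Filter.Eventually.of_forall fun n => ?_
      have hn : (0 : ℝ) < T / 2 / (n + 1) := by positivity
      have hn2 : T / 2 / ((n : ℝ) + 1) ≤ T / 2 := by
        refine div_le_self (by linarith) ?_
        linarith [Nat.cast_nonneg (α := ℝ) n]
      set t : ℝ := T - T / 2 / ((n : ℝ) + 1) with ht
      have htI : t ∈ Ico (T / 2) T := ⟨by rw [ht]; linarith, by rw [ht]; linarith⟩
      have h1 : ∫ x in Ioc (T / 2) t, ‖enstrophy (u x) ^ 2‖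
          ≤ ∫ x in Ioc (T / 2) t, 16 * Real.pi ^ 4 * K * YY (cm u x) := by
        refine setIntegral_mono_on ?_ ?_ measurableSet_Ioc fun s hs => ?_
        · refine IntegrableOn.mono_set ?_ Ioc_subset_Icc_self (t := Icc (T / 2) t)
          refine (ContinuousOn.integrableOn_Icc ?_).norm
          exact hens.mono fun s hs => ⟨by linarith [hs.1], by linarith [hs.2, htI.2]⟩
        · refine IntegrableOn.mono_set ?_ Ioc_subset_Icc_self (t := Icc (T / 2) t)
          refine ContinuousOn.integrableOn_Icc (continuousOn_const.mul ?_)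
          exact (cont_YY h).mono fun s hs => ⟨by linarith [hs.1], by linarith [hs.2, htI.2]⟩
        · rw [Real.norm_of_nonneg (sq_nonneg _)]
          exact hpt s ⟨hs.1.le, hs.2.trans_lt htI.2⟩
      refine h1.trans ?_
      rw [integral_const_mul, hK2]
      refine mul_le_mul_of_nonneg_left ?_ (by positivity)
      have h2 := (hK t htI).2
      rwa [intervalIntegral.integral_of_le htI.1] at h2
  have hfirst : IntegrableOn (fun t => enstrophy (u t) ^ 2) (Ioc 0 (T / 2)) := by
    refine IntegrableOn.mono_set (ContinuousOn.integrableOn_Icc ?_) Ioc_subset_Icc_self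
    exact hens.mono fun s hs => ⟨hs.1, by linarith [hs.2]⟩
  have hall := hfirst.union hIoc
  rw [Ioc_union_Ioc_eq_Ioc ht0.1.le ht0.2.le] at hall
  exact hall.mono_set Ioo_subset_Ioc_self

theorem main {r : ℝ≥0∞} (hr : 3 / 2 < r) {q : ℝ} (hq : 3 * (r⁻¹).toReal + 2 / q = 2)
    {ν T : ℝ} (hν : 0 < ν) {u : ℝ → V → V} {P : ℝ → V → ℝ} (h : IsSol ν T u P)
    {β γ : ℝ → ℝ} (hβ : IntegrableOn (fun t => β t ^ q) (Ioo 0 T))
    (hγ : IntegrableOn γ (Ioo 0 T))
    (hcomp : ∀ᵐ t ∂(volume.restrict (Ioo 0 T)), 0 ≤ β t ∧ ∃ (s : ℝ) (g f : V → V)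
      (f₁ f₂ : V → ℝ), (s = 1 ∨ s = -1) ∧ Helical s g ∧ Helical (-s) f ∧
        (∀ x, u t x = g x + f x) ∧
        AEStronglyMeasurable f₁ (volume.restrict cube) ∧ (∀ x, 0 ≤ f₁ x) ∧
        IntegrableOn f₂ cube ∧ (∀ x, ∑ i, g x i ^ 2 ≤ f₁ x + f₂ x) ∧
        eLpNorm f₁ r (volume.restrict cube) ≤ ENNReal.ofReal (β t) ∧
        FormBound ((ν / 500) ^ 2) (γ t) f₂) :
    ∃ M, ∀ t ∈ Ico 0 T, ∀ x i, |u t x i| ≤ M := by
  have hθ0 : 0 ≤ th r := th_nonneg r
  have hqe : 2 / (2 - th r) = q := by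
    have h1 : 2 / q = 2 - th r := by
      have : th r = 3 * (r⁻¹).toReal := rfl
      rw [this]; linarith
    have hq0 : q ≠ 0 := by
      intro h0
      rw [h0, div_zero] at h1
      have := th_lt_two hr
      linarith
    rw [← h1]
    field_simp
  have hth := th_lt_two hr
  have hq1 : 1 ≤ q := by
    rw [← hqe, le_div_iff₀ (by linarith)]
    linarith
  obtain ⟨D, hD0, hD⟩ := lp_form hr (ε := 2 / 10 ^ 6 * ν ^ 2) (by positivity)
  rw [hqe] at hD
  set B2 : ℝ → ℝ := fun t => D * (1 + 2 * β t ^ q) + |γ t| + 1 with hB2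
  refine bounded_of_diff hν h (k := fun t => 20000 / ν * B2 t) ?_ ?_
  · refine Integrable.const_mul ?_ _
    have h1 : IntegrableOn (fun _ : ℝ => (1 : ℝ)) (Ioo 0 T) := integrableOn_const (by simp)
    exact (((h1.add (hβ.const_mul 2)).const_mul D).add hγ.abs).add h1
  · filter_upwards [hcomp, ae_restrict_mem measurableSet_Ioo] with t htc ht
    obtain ⟨hβ0, s, g, f, f₁, f₂, hs, hg, hf, hu, hf1m, hf10, hf2i, hle, hLp, hform⟩ := htc
    have hI : t ∈ Ico 0 T := ⟨ht.1.le, ht.2⟩
    have hβq : 0 ≤ β t ^ q := Real.rpow_nonneg hβ0 q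
    have hB2p : 0 < B2 t := by
      simp only [hB2]
      positivity
    refine ⟨by positivity, ?_⟩
    have hdec := exists_dec hs hg hf hu (h.divfree t hI)
    obtain ⟨hf1i, hf1F⟩ := hD f₁ (β t) hf1m hβ0 hLp hf10
    have hadd := hf1F.add hform hf1i hf2i
    set B : ℝ := Real.sqrt (B2 t) with hB
    have hBsq : B ^ 2 = B2 t := Real.sq_sqrt hB2p.le
    have hBp : 0 < B := Real.sqrt_pos.2 hB2p
    have hbd : ∀ i, Bdd (ν / 400) B (fun x => g x i) := by
      intro i z hz
      have hz2 : 0 ≤ ∫ x in cube, z x ^ 2 := integral_nonneg fun x => sq_nonneg _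
      have hgz : ∫ x in cube, ∑ j, pd j z x ^ 2 = ∑ j, ∫ x in cube, pd j z x ^ 2 :=
        integral_finsetSum _ fun j _ => integrableOn_cube ((hz.pd j).cont.pow 2)
      have hG0 : 0 ≤ ∑ j, ∫ x in cube, pd j z x ^ 2 :=
        Finset.sum_nonneg fun j _ => integral_nonneg fun x => sq_nonneg _
      have h1 := hadd z hz
      rw [hgz] at h1
      have h2 : ∫ x in cube, g x i ^ 2 * z x ^ 2 ≤ ∫ x in cube, (f₁ x + f₂ x) * z x ^ 2 := by
        refine integral_mono_of_nonneg (Filter.Eventually.of_forall fun x => by positivity) ?_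
          (Filter.Eventually.of_forall fun x => ?_)
        · exact int_mul_cont (hf1i.add hf2i) (hz.cont.pow 2)
        · refine mul_le_mul_of_nonneg_right ?_ (sq_nonneg _)
          refine le_trans ?_ (hle x)
          exact Finset.single_le_sum (f := fun i => g x i ^ 2) (fun i _ => sq_nonneg _)
            (Finset.mem_univ i)
      refine (h2.trans h1).trans (add_le_add ?_ ?_)
      · refine mul_le_mul_of_nonneg_right ?_ hG0
        nlinarith [sq_nonneg ν]
      · refine mul_le_mul_of_nonneg_right ?_ hz2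
        rw [hBsq]
        simp only [hB2]
        have hβ1 : β t ≤ 1 + β t ^ q := by
          rcases le_or_gt (β t) 1 with h3 | h3
          · linarith
          · have := Real.rpow_le_rpow_of_exponent_le h3.le hq1
            rw [Real.rpow_one] at this
            linarith
        have h4 := le_abs_self (γ t)
        have h5 : D * (β t + β t ^ q) ≤ D * (1 + 2 * β t ^ q) :=
          mul_le_mul_of_nonneg_left (by linarith) hD0
        linarith
    have := diff_ineq h hν ht hdec hBp hbd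
    rw [hBsq] at this
    exact this

end Pool.Agent.V1191.NS
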