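import Pool.Agent.V1191.NS.Curl

/-!
The decomposition of a vector field into two helical parts and the bound of the production term.
-/

open MeasureTheory Set Filter Topology
open scoped ContDiff ENNReal

namespace Pool.Agent.V1191.NS

open H459R3.NS Pool.Agent.W12.MD.R0

/-- `u = g + f` with `g` and `f` eigenfields of `curl |D|⁻¹` with opposite signs -/
structure Dec (s : ℝ) (u g f : Fin 3 → V → ℝ) : Prop where
  s2 : s * s = 1
  hg : ∀ i, SP (g i)
  hf : ∀ i, SP (f i)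
  dec : ∀ i, u i = fun x => g i x + f i x
  cg : ∀ i, crl g i = fun x => s * (2 * Real.pi) * Lam (g i) x
  cf : ∀ i, crl f i = fun x => -(s * (2 * Real.pi)) * Lam (f i) x
  dv : ∀ x, ∑ i, pd i (u i) x = 0

variable {s : ℝ} {u g f : Fin 3 → V → ℝ}

theorem Dec.hu (h : Dec s u g f) (i : Fin 3) : SP (u i) := by
  rw [h.dec i]
  exact (h.hg i).add (h.hf i)

/-- the production term -/
noncomputable def NN (u g : Fin 3 → V → ℝ) : ℝ :=
  -∑ i, ∑ j, I3 (u j) (pd j (u i)) (Lam (g i))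

/-- the second local term -/
noncomputable def L2 (u g : Fin 3 → V → ℝ) : ℝ := ∑ i, ∑ j, I3 (Lam (u j)) (pd j (u i)) (g i)

/-- the nonlocal term -/
noncomputable def JJ (u g : Fin 3 → V → ℝ) : ℝ :=
  ∑ i, ∑ j, ∫ y, Jr (u j) (pd j (u i)) (g i) y ∂kap

theorem Dec.two_N (h : Dec s u g f) {c : ℝ} (hc0 : 0 < c)
    (hc : ∀ k : K3, Integrable (fun y => ‖1 - ee k (-y)‖ ^ 2) kap ∧
    ∫ y, ‖1 - ee k (-y)‖ ^ 2 ∂kap = c * kn k) :
    2 * NN u g = -(s / (2 * Real.pi)) * L1 u f g - L2 u g + (1 / c) * JJ u g := by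
  have hpi := Real.pi_pos
  have hu := h.hu
  have hg := h.hg
  have hf := h.hf
  -- the product rule
  have h1 : ∀ i j, I3 (u j) (pd j (u i)) (Lam (g i))
      = I3 (u j) (g i) (pd j (Lam (u i))) + I3 (Lam (u j)) (pd j (u i)) (g i)
        - (1 / c) * ∫ y, Jr (u j) (pd j (u i)) (g i) y ∂kap := by
    intro i j
    have hp := (prod_rule hc (hu j) ((hu i).pd j) (hg i)).2
    have e1 : Bf (fun x => u j x * pd j (u i) x) (g i) = I3 (u j) (pd j (u i)) (Lam (g i)) := by
      rw [Bf_comm, ← int_Lam (hg i) ((hu j).mul ((hu i).pd j))]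
      unfold I3
      congr 1
      funext x
      ring
    have e2 : Bf (pd j (u i)) (fun x => u j x * g i x) = I3 (u j) (g i) (pd j (Lam (u i))) := by
      rw [← int_Lam ((hu i).pd j) ((hu j).mul (hg i)), pd_Lam (hu i)]
      unfold I3
      congr 1
      funext x
      ring
    have e3 : Bf (u j) (fun x => pd j (u i) x * g i x) = I3 (Lam (u j)) (pd j (u i)) (g i) := by
      rw [← int_Lam (hu j) (((hu i).pd j).mul (hg i))]
      unfold I3
      congr 1
      funext x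
      ring
    rw [e1, e2, e3] at hp
    field_simp
    linarith
  -- transport
  have h2 : NN u g = ∑ i, ∑ j, I3 (u j) (u i) (pd j (Lam (g i))) := by
    unfold NN
    rw [← Finset.sum_neg_distrib]
    refine Finset.sum_congr rfl fun i _ => ?_
    rw [tr3 hu h.dv (hu i) (sp_Lam (hg i))]
  have h3 : ∀ i j, I3 (u j) (u i) (pd j (Lam (g i)))
      = I3 (u j) (g i) (pd j (Lam (g i))) + I3 (u j) (f i) (pd j (Lam (g i))) := by
    intro i j
    have : u i = fun x => g i x + f i x := h.dec i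
    conv_lhs => rw [this]
    exact I3_add2 (hu j) (hg i) (hf i) ((sp_Lam (hg i)).pd j)
  have h4 : ∀ i j, I3 (u j) (g i) (pd j (Lam (u i)))
      = I3 (u j) (g i) (pd j (Lam (g i))) + I3 (u j) (g i) (pd j (Lam (f i))) := by
    intro i j
    have : Lam (u i) = fun x => Lam (g i) x + Lam (f i) x := by
      rw [h.dec i, Lam_add (hg i) (hf i)]
    rw [this, pdadd (sp_Lam (hg i)) (sp_Lam (hf i))]
    exact I3_add3 (hu j) (hg i) ((sp_Lam (hg i)).pd j) ((sp_Lam (hf i)).pd j)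
  -- the curl
  have h5 : ∀ i j, I3 (u j) (f i) (pd j (crl g i))
      = s * (2 * Real.pi) * I3 (u j) (f i) (pd j (Lam (g i))) := by
    intro i j
    rw [h.cg i, pdcmul (sp_Lam (hg i)), I3_cmul3]
  have h6 : ∀ i j, I3 (u j) (g i) (pd j (crl f i))
      = -(s * (2 * Real.pi)) * I3 (u j) (g i) (pd j (Lam (f i))) := by
    intro i j
    rw [h.cf i, pdcmul (sp_Lam (hf i)), I3_cmul3]
  have h7 := twist hu hf hg h.dv
  simp_rw [h5, h6, ← Finset.mul_sum] at h7
  have n1 : NN u g = -(∑ i, ∑ j, I3 (u j) (g i) (pd j (Lam (u i)))) - L2 u g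
      + (1 / c) * JJ u g := by
    unfold NN L2 JJ
    simp_rw [h1, Finset.sum_sub_distrib, Finset.sum_add_distrib, ← Finset.mul_sum]
    ring
  simp_rw [h4, Finset.sum_add_distrib] at n1
  simp_rw [h3, Finset.sum_add_distrib] at h2
  set tgg := ∑ i, ∑ j, I3 (u j) (g i) (pd j (Lam (g i)))
  set tfg := ∑ i, ∑ j, I3 (u j) (f i) (pd j (Lam (g i)))
  set tgf := ∑ i, ∑ j, I3 (u j) (g i) (pd j (Lam (f i)))
  have h8 : tfg - tgf = -(s / (2 * Real.pi)) * L1 u f g := by
    have h9 : -(s / (2 * Real.pi)) * L1 u f g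
        = (s / (2 * Real.pi)) * (s * (2 * Real.pi) * tfg + -(s * (2 * Real.pi)) * tgf) := by
      rw [h7]; ring
    rw [h9]
    field_simp
    have := h.s2
    linear_combination (tgf - tfg) * this
  linarith

/-- The production term for the square of the norm of order one half. -/
theorem Dec.conv_eq (h : Dec s u g f) :
    -∑ i, ∑ j, I3 (u j) (pd j (u i)) (Lam (u i)) = 2 * NN u g := by
  have hu := h.hu
  have h0 := conv_crl hu
  have hpi := Real.pi_pos
  have hs0 : s ≠ 0 := by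
    intro hs
    have := h.s2
    rw [hs] at this
    norm_num at this
  have e1 : ∀ i, crl u i = fun x => s * (2 * Real.pi) * (Lam (g i) x - Lam (f i) x) := by
    intro i
    have e : crl u i = fun x => crl g i x + crl f i x := by
      funext x
      unfold crl
      have e2 : ∀ m, pd m (u (i + 1)) x = pd m (g (i + 1)) x + pd m (f (i + 1)) x := fun m => by
        rw [h.dec (i + 1), pdadd (h.hg _) (h.hf _)]
      have e3 : ∀ m, pd m (u (i + 2)) x = pd m (g (i + 2)) x + pd m (f (i + 2)) x := fun m => by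
        rw [h.dec (i + 2), pdadd (h.hg _) (h.hf _)]
      rw [e2, e3]
      ring
    rw [e]
    funext x
    rw [h.cg i, h.cf i]
    ring
  have e2 : ∀ i j, I3 (u j) (pd j (u i)) (crl u i) = s * (2 * Real.pi)
      * (I3 (u j) (pd j (u i)) (Lam (g i)) - I3 (u j) (pd j (u i)) (Lam (f i))) := by
    intro i j
    rw [e1 i, I3_cmul3, I3_sub3 (hu j) ((hu i).pd j) (sp_Lam (h.hg i)) (sp_Lam (h.hf i))]
  have e3 : ∀ i j, I3 (u j) (pd j (u i)) (Lam (u i))
      = I3 (u j) (pd j (u i)) (Lam (g i)) + I3 (u j) (pd j (u i)) (Lam (f i)) := by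
    intro i j
    have : Lam (u i) = fun x => Lam (g i) x + Lam (f i) x := by
      rw [h.dec i, Lam_add (h.hg i) (h.hf i)]
    rw [this, I3_add3 (hu j) ((hu i).pd j) (sp_Lam (h.hg i)) (sp_Lam (h.hf i))]
  simp_rw [e2, ← Finset.mul_sum, Finset.sum_sub_distrib] at h0
  have h1 := (mul_eq_zero.1 h0).resolve_left (by positivity)
  simp_rw [e3, Finset.sum_add_distrib]
  unfold NN
  linarith

/-! ### Orthogonality -/

theorem fr_crl {a : Fin 3 → V → ℝ} (ha : ∀ i, SP (a i)) (i : Fin 3) (k : K3) :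
    fr (crl a i) k = 2 * Real.pi * Complex.I
      * ((k (i + 1) : ℂ) * fr (a (i + 2)) k - (k (i + 2) : ℂ) * fr (a (i + 1)) k) := by
  have h1 : fr (crl a i) k = fr (pd (i + 1) (a (i + 2))) k - fr (pd (i + 2) (a (i + 1))) k := by
    unfold fr fc crl
    rw [← integral_sub]
    · congr 1
      funext x
      push_cast
      ring
    · exact integrableOn_cube ((ee_continuous _).mul
        (Complex.continuous_ofReal.comp ((ha _).pd _).cont))
    · exact integrableOn_cube ((ee_continuous _).mul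
        (Complex.continuous_ofReal.comp ((ha _).pd _).cont))
  rw [h1, fr_pd (ha _), fr_pd (ha _)]
  unfold D
  ring

theorem frcmul {f : V → ℝ} (c : ℝ) (k : K3) : fr (fun x => c * f x) k = c * fr f k := by
  unfold fr fc
  rw [← integral_const_mul]
  congr 1
  funext x
  push_cast
  ring

theorem Dec.orth (h : Dec s u g f) {k : K3} (hk : k ≠ 0) :
    ∑ i, fr (g i) k * (starRingEnd ℂ) (fr (f i) k) = 0 := by
  have hkn : (kn k : ℂ) ≠ 0 := by exact_mod_cast (kn_pos hk).ne'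
  have hpi : (Real.pi : ℂ) ≠ 0 := by exact_mod_cast Real.pi_pos.ne'
  have hs : (s : ℂ) * s = 1 := by exact_mod_cast h.s2
  have hs0 : (s : ℂ) ≠ 0 := by
    intro h0
    rw [h0] at hs
    norm_num at hs
  have eg : ∀ i, (s : ℂ) * kn k * fr (g i) k = Complex.I
      * ((k (i + 1) : ℂ) * fr (g (i + 2)) k - (k (i + 2) : ℂ) * fr (g (i + 1)) k) := by
    intro i
    have h1 := fr_crl h.hg i k
    rw [h.cg i, frcmul, fr_Lam (h.hg i)] at h1
    push_cast at h1
    have h2 : (2 * Real.pi : ℂ) * ((s : ℂ) * kn k * fr (g i) k) = (2 * Real.pi : ℂ) * (Complex.I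
      * ((k (i + 1) : ℂ) * fr (g (i + 2)) k - (k (i + 2) : ℂ) * fr (g (i + 1)) k)) := by
      linear_combination h1
    exact mul_left_cancel₀ (by simp) h2
  have ef : ∀ i, -((s : ℂ) * kn k) * (starRingEnd ℂ) (fr (f i) k) = -Complex.I
      * ((k (i + 1) : ℂ) * (starRingEnd ℂ) (fr (f (i + 2)) k)
        - (k (i + 2) : ℂ) * (starRingEnd ℂ) (fr (f (i + 1)) k)) := by
    intro i
    have h1 := fr_crl h.hf i k
    rw [h.cf i, frcmul, fr_Lam (h.hf i)] at h1
    push_cast at h1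
    have h2 : (2 * Real.pi : ℂ) * (-((s : ℂ) * kn k) * fr (f i) k) = (2 * Real.pi : ℂ) * (Complex.I
      * ((k (i + 1) : ℂ) * fr (f (i + 2)) k - (k (i + 2) : ℂ) * fr (f (i + 1)) k)) := by
      linear_combination h1
    have h3 := mul_left_cancel₀ (by simp) h2
    have h4 := congrArg (starRingEnd ℂ) h3
    simpa using h4
  have g0 := eg 0
  have g1 := eg 1
  have g2 := eg 2
  have q0 := ef 0
  have q1 := ef 1
  have q2 := ef 2
  have f1 : (0 : Fin 3) + 1 = 1 := rfl
  have f2 : (0 : Fin 3) + 2 = 2 := rfl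
  have f3 : (1 : Fin 3) + 1 = 2 := rfl
  have f4 : (1 : Fin 3) + 2 = 0 := rfl
  have f5 : (2 : Fin 3) + 1 = 0 := rfl
  have f6 : (2 : Fin 3) + 2 = 1 := rfl
  rw [f1, f2] at g0 q0
  rw [f3, f4] at g1 q1
  rw [f5, f6] at g2 q2
  rw [Fin.sum_univ_three]
  have hne : (2 : ℂ) * (s * kn k) ≠ 0 := mul_ne_zero two_ne_zero (mul_ne_zero hs0 hkn)
  refine (mul_eq_zero.1 ?_).resolve_left hne
  linear_combination ((starRingEnd ℂ) (fr (f 0) k)) * g0 + ((starRingEnd ℂ) (fr (f 1) k)) * g1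
    + ((starRingEnd ℂ) (fr (f 2) k)) * g2 - fr (g 0) k * q0 - fr (g 1) k * q1 - fr (g 2) k * q2

theorem Dec.norm_add (h : Dec s u g f) {k : K3} (hk : k ≠ 0) :
    ∑ i, ‖fr (u i) k‖ ^ 2 = ∑ i, ‖fr (g i) k‖ ^ 2 + ∑ i, ‖fr (f i) k‖ ^ 2 := by
  have h0 := congrArg Complex.re (h.orth hk)
  rw [Complex.re_sum, Complex.zero_re] at h0
  have e : ∀ i, ‖fr (u i) k‖ ^ 2 = ‖fr (g i) k‖ ^ 2 + ‖fr (f i) k‖ ^ 2
      + 2 * (fr (g i) k * (starRingEnd ℂ) (fr (f i) k)).re := by
    intro i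
    rw [h.dec i, fradd (h.hg i) (h.hf i), ← Complex.normSq_eq_norm_sq,
      ← Complex.normSq_eq_norm_sq, ← Complex.normSq_eq_norm_sq, Complex.normSq_add]
  simp_rw [e, Finset.sum_add_distrib, ← Finset.mul_sum]
  rw [h0]
  ring

theorem Dec.Q_f_le (h : Dec s u g f) {m : K3 → ℝ} (hm : Pol m) (hm0 : ∀ k, 0 ≤ m k)
    (hz : m 0 = 0) : ∑ i, Q m (f i) ≤ ∑ i, Q m (u i) := by
  unfold Q
  rw [← Summable.tsum_finsetSum fun i _ => summable_Q hm (h.hf i),
    ← Summable.tsum_finsetSum fun i _ => summable_Q hm (h.hu i)]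
  refine Summable.tsum_le_tsum (fun k => ?_) (summable_sum fun i _ => summable_Q hm (h.hf i))
    (summable_sum fun i _ => summable_Q hm (h.hu i))
  by_cases hk : k = 0
  · simp [hk, hz]
  · rw [← Finset.mul_sum, ← Finset.mul_sum, h.norm_add hk]
    refine mul_le_mul_of_nonneg_left ?_ (hm0 k)
    have : 0 ≤ ∑ i, ‖fr (g i) k‖ ^ 2 := Finset.sum_nonneg fun i _ => sq_nonneg _
    linarith

end Pool.Agent.V1191.NS
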