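import Pool.Agent.V1191.NS.Mlt

/-!
A multiplication operator which is bounded by a Fourier multiplier: comparison of the forms.
-/

open MeasureTheory Set Filter Topology
open scoped ContDiff

namespace Pool.Agent.V1191.NS

open H459R3.NS Pool.Agent.W12.MD.R0

/-- symbols of polynomial growth -/
def Pol (m : K3 → ℝ) : Prop := ∃ (C : ℝ) (n : ℕ), 0 ≤ C ∧ ∀ k, |m k| ≤ C * (1 + (N k : ℝ)) ^ n

theorem Lin.pol {m : K3 → ℝ} (h : Lin m) : Pol m := by
  obtain ⟨C, hC, h⟩ := h
  exact ⟨C, 1, hC, fun k => by rw [pow_one]; exact h k⟩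

theorem Pol.mul {m m' : K3 → ℝ} (h : Pol m) (h' : Pol m') : Pol (fun k => m k * m' k) := by
  obtain ⟨C, n, hC, h⟩ := h
  obtain ⟨C', n', hC', h'⟩ := h'
  refine ⟨C * C', n + n', by positivity, fun k => ?_⟩
  rw [abs_mul, pow_add]
  calc |m k| * |m' k| ≤ (C * (1 + (N k : ℝ)) ^ n) * (C' * (1 + (N k : ℝ)) ^ n') := by
        gcongr
        · exact h k
        · exact h' k
    _ = _ := by ring

theorem Pol.add {m m' : K3 → ℝ} (h : Pol m) (h' : Pol m') : Pol (fun k => m k + m' k) := by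
  obtain ⟨C, n, hC, h⟩ := h
  obtain ⟨C', n', hC', h'⟩ := h'
  refine ⟨C + C', n + n', by positivity, fun k => ?_⟩
  have h1 : (1 : ℝ) ≤ 1 + N k := by linarith [Nat.cast_nonneg (α := ℝ) (N k)]
  have a1 : (1 + (N k : ℝ)) ^ n ≤ (1 + (N k : ℝ)) ^ (n + n') := pow_le_pow_right₀ h1 (by omega)
  have a2 : (1 + (N k : ℝ)) ^ n' ≤ (1 + (N k : ℝ)) ^ (n + n') := pow_le_pow_right₀ h1 (by omega)
  calc |m k + m' k| ≤ |m k| + |m' k| := abs_add_le _ _
    _ ≤ C * (1 + (N k : ℝ)) ^ n + C' * (1 + (N k : ℝ)) ^ n' := add_le_add (h k) (h' k)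
    _ ≤ C * (1 + (N k : ℝ)) ^ (n + n') + C' * (1 + (N k : ℝ)) ^ (n + n') := by gcongr
    _ = _ := by ring

theorem pol_const (c : ℝ) : Pol (fun _ => c) := ⟨|c|, 0, abs_nonneg _, fun k => by simp⟩

theorem pol_kn : Pol kn := lin_kn.pol

theorem Pol.pow {m : K3 → ℝ} (h : Pol m) (n : ℕ) : Pol (fun k => m k ^ n) := by
  induction n with
  | zero => simpa using pol_const 1
  | succ n ih => simpa [pow_succ] using ih.mul h

theorem rap_pow {a : K3 → ℂ} (ha : Rap a) (n : ℕ) :
    Summable fun k => (1 + (N k : ℝ)) ^ n * ‖a k‖ := by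
  have h : ∀ k, (1 + (N k : ℝ)) ^ n * ‖a k‖
      = ∑ i ∈ Finset.range (n + 1), (n.choose i : ℝ) * ((N k : ℝ) ^ i * ‖a k‖) := by
    intro k
    rw [add_comm, add_pow, Finset.sum_mul]
    refine Finset.sum_congr rfl fun i _ => ?_
    rw [one_pow]
    ring
  simp_rw [h]
  exact summable_sum fun i _ => (ha i).mul_left _

/-- weighted products of coefficients are summable -/
theorem summable_mul {m : K3 → ℝ} (hm : Pol m) {a b : K3 → ℂ} (ha : Rap a) (hb : Rap b) :
    Summable fun k => m k * (‖a k‖ * ‖b k‖) := by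
  obtain ⟨C, n, hC, hm⟩ := hm
  have hM : ∀ k, ‖b k‖ ≤ ∑' m, ‖b m‖ := fun k => hb.summable.norm.le_tsum k fun _ _ => norm_nonneg _
  refine Summable.of_norm_bounded ((rap_pow ha n).mul_left (C * ∑' m, ‖b m‖)) fun k => ?_
  rw [Real.norm_eq_abs, abs_mul, abs_of_nonneg (mul_nonneg (norm_nonneg _) (norm_nonneg (b k)))]
  calc |m k| * (‖a k‖ * ‖b k‖) ≤ (C * (1 + (N k : ℝ)) ^ n) * (‖a k‖ * ∑' m, ‖b m‖) := by
        gcongr
        · exact hm k
        · exact hM k
    _ = _ := by ring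

theorem summable_pr {m : K3 → ℝ} (hm : Pol m) {a b : K3 → ℂ} (ha : Rap a) (hb : Rap b) :
    Summable fun k => m k * pr a b k := by
  refine Summable.of_norm_bounded (summable_mul hm ha hb).norm fun k => ?_
  rw [norm_mul, norm_mul, Real.norm_eq_abs (pr a b k),
    Real.norm_of_nonneg (mul_nonneg (norm_nonneg (a k)) (norm_nonneg (b k)))]
  exact mul_le_mul_of_nonneg_left (abs_pr_le a b k) (norm_nonneg _)

/-- the quadratic form with symbol `m` -/
noncomputable def Q (m : K3 → ℝ) (f : V → ℝ) : ℝ := ∑' k, m k * ‖fr f k‖ ^ 2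

theorem summable_Q {m : K3 → ℝ} (hm : Pol m) {f : V → ℝ} (hf : SP f) :
    Summable fun k => m k * ‖fr f k‖ ^ 2 := by
  have h := summable_mul hm (rap_fr hf) (rap_fr hf)
  simpa [sq] using h

theorem Q_nonneg {m : K3 → ℝ} (hm : ∀ k, 0 ≤ m k) (f : V → ℝ) : 0 ≤ Q m f :=
  tsum_nonneg fun k => mul_nonneg (hm k) (sq_nonneg _)

theorem Q_mono {m m' : K3 → ℝ} (hm : Pol m) (hm' : Pol m') (h : ∀ k, m k ≤ m' k) {f : V → ℝ}
    (hf : SP f) : Q m f ≤ Q m' f :=
  (summable_Q hm hf).tsum_le_tsum (fun k => mul_le_mul_of_nonneg_right (h k) (sq_nonneg _))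
    (summable_Q hm' hf)

/-- Cauchy-Schwarz for series. -/
theorem tsum_cs {ι : Type*} {m a b : ι → ℝ} (hm : ∀ k, 0 ≤ m k) (ha : ∀ k, 0 ≤ a k)
    (hb : ∀ k, 0 ≤ b k) (h1 : Summable fun k => m k * a k ^ 2)
    (h2 : Summable fun k => m k * b k ^ 2) :
    (Summable fun k => m k * (a k * b k)) ∧
    ∑' k, m k * (a k * b k) ≤ Real.sqrt (∑' k, m k * a k ^ 2) * Real.sqrt (∑' k, m k * b k ^ 2) := by
  have e1 : ∀ k, (Real.sqrt (m k) * a k) ^ (2 : ℝ) = m k * a k ^ 2 := by
    intro k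
    rw [Real.rpow_two, mul_pow, Real.sq_sqrt (hm k)]
  have e2 : ∀ k, (Real.sqrt (m k) * b k) ^ (2 : ℝ) = m k * b k ^ 2 := by
    intro k
    rw [Real.rpow_two, mul_pow, Real.sq_sqrt (hm k)]
  have e3 : ∀ k, Real.sqrt (m k) * a k * (Real.sqrt (m k) * b k) = m k * (a k * b k) := by
    intro k
    calc _ = (Real.sqrt (m k) * Real.sqrt (m k)) * (a k * b k) := by ring
      _ = _ := by rw [Real.mul_self_sqrt (hm k)]
  have h := Real.inner_le_Lp_mul_Lq_tsum_of_nonneg (p := 2) (q := 2)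
    (f := fun k => Real.sqrt (m k) * a k) (g := fun k => Real.sqrt (m k) * b k)
    Real.HolderConjugate.two_two
    (fun k => mul_nonneg (Real.sqrt_nonneg _) (ha k))
    (fun k => mul_nonneg (Real.sqrt_nonneg _) (hb k)) (by simp_rw [e1]; exact h1)
    (by simp_rw [e2]; exact h2)
  have h' := Real.summable_mul_of_Lp_Lq_of_nonneg (p := 2) (q := 2)
    (f := fun k => Real.sqrt (m k) * a k) (g := fun k => Real.sqrt (m k) * b k)
    Real.HolderConjugate.two_two
    (fun k => mul_nonneg (Real.sqrt_nonneg _) (ha k))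
    (fun k => mul_nonneg (Real.sqrt_nonneg _) (hb k)) (by simp_rw [e1]; exact h1)
    (by simp_rw [e2]; exact h2)
  simp_rw [e1, e2, e3] at h
  simp_rw [e3] at h'
  rw [Real.sqrt_eq_rpow, Real.sqrt_eq_rpow]
  exact ⟨h', h⟩

theorem abs_tsum_pr_le {m : K3 → ℝ} (hm : Pol m) (hm0 : ∀ k, 0 ≤ m k) {f g : V → ℝ} (hf : SP f)
    (hg : SP g) : |∑' k, m k * pr (fr f) (fr g) k| ≤ Real.sqrt (Q m f) * Real.sqrt (Q m g) := by
  have h1 := summable_pr hm (rap_fr hf) (rap_fr hg)
  have h2 := tsum_cs hm0 (fun k => norm_nonneg (fr f k)) (fun k => norm_nonneg (fr g k))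
    (summable_Q hm hf) (summable_Q hm hg)
  refine le_trans ?_ h2.2
  rw [← Real.norm_eq_abs]
  refine (norm_tsum_le_tsum_norm h1.norm).trans ?_
  refine h1.norm.tsum_le_tsum (fun k => ?_) h2.1
  rw [Real.norm_eq_abs, abs_mul, abs_of_nonneg (hm0 k)]
  exact mul_le_mul_of_nonneg_left (abs_pr_le _ _ k) (hm0 k)

/-- A bounded log-convex sequence does not increase. -/
theorem logconvex {r : ℕ → ℝ} (h0 : ∀ n, 0 ≤ r n) (hc : ∀ n, r (n + 1) ^ 2 ≤ r n * r (n + 2))
    {M : ℝ} (hM : ∀ n, r n ≤ M) : r 1 ≤ r 0 := by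
  by_contra hlt
  push Not at hlt
  rcases (h0 0).eq_or_lt with h | h
  · have := hc 0
    rw [← h, zero_mul, zero_add] at this
    have h1 : r 1 = 0 := pow_eq_zero_iff (two_ne_zero) |>.1 (le_antisymm this (sq_nonneg _))
    rw [h1, ← h] at hlt
    exact lt_irrefl _ hlt
  · set ρ : ℝ := r 1 / r 0 with hρ
    have hρ1 : 1 < ρ := by rw [hρ, one_lt_div h]; exact hlt
    have key : ∀ n, 0 < r n ∧ ρ * r n ≤ r (n + 1) := by
      intro n
      induction n with
      | zero => exact ⟨h, by rw [hρ, zero_add]; field_simp; exact le_rfl⟩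
      | succ n ih =>
        have hp : 0 < r (n + 1) := lt_of_lt_of_le (mul_pos (by linarith) ih.1) ih.2
        refine ⟨hp, ?_⟩
        have h1 := hc n
        have h2 : ρ * r n * r (n + 1) ≤ r n * r (n + 2) := by
          calc ρ * r n * r (n + 1) ≤ r (n + 1) * r (n + 1) := by
                gcongr
                exact ih.2
            _ = r (n + 1) ^ 2 := by ring
            _ ≤ _ := h1
        have h3 : r n * (ρ * r (n + 1)) ≤ r n * r (n + 2) := by linarith
        exact le_of_mul_le_mul_left h3 ih.1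
    have hge : ∀ n, ρ ^ n * r 0 ≤ r n := by
      intro n
      induction n with
      | zero => simp
      | succ n ih =>
        calc ρ ^ (n + 1) * r 0 = ρ * (ρ ^ n * r 0) := by ring
          _ ≤ ρ * r n := by gcongr
          _ ≤ _ := (key n).2
    obtain ⟨n, hn⟩ := pow_unbounded_of_one_lt (M / r 0) hρ1
    rw [div_lt_iff₀ h] at hn
    linarith [hge n, hM n]

theorem tsum_norm_sq_pd {z : V → ℝ} (hz : SP z) (i : Fin 3) :
    HasSum (fun k : K3 => 4 * Real.pi ^ 2 * (k i : ℝ) ^ 2 * ‖fr z k‖ ^ 2)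
      (∫ x in cube, pd i z x ^ 2) := by
  have h := parseval (hz.pd i) (hz.pd i)
  have e : ∀ k, pr (fr (pd i z)) (fr (pd i z)) k
      = 4 * Real.pi ^ 2 * (k i : ℝ) ^ 2 * ‖fr z k‖ ^ 2 := by
    intro k
    rw [pr_self, fr_pd hz, D, norm_mul, norm_mul, norm_mul, norm_mul, Complex.norm_I, mul_one,
      Complex.norm_real, Real.norm_eq_abs, abs_of_pos Real.pi_pos, Complex.norm_ofNat,
      Complex.norm_intCast, mul_pow, mul_pow, mul_pow, sq_abs]
    ring
  simp_rw [← sq] at h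
  rw [show (fun k : K3 => 4 * Real.pi ^ 2 * (k i : ℝ) ^ 2 * ‖fr z k‖ ^ 2)
    = pr (fr (pd i z)) (fr (pd i z)) from funext fun k => (e k).symm]
  exact h

theorem grad_sq {z : V → ℝ} (hz : SP z) :
    ∑ i, ∫ x in cube, pd i z x ^ 2 = Q (fun k => 4 * Real.pi ^ 2 * kk k) z := by
  unfold Q
  rw [← (hasSum_sum fun i _ => tsum_norm_sq_pd hz i).tsum_eq]
  refine tsum_congr fun k => ?_
  unfold kk
  beta_reduce
  rw [Finset.mul_sum, Finset.sum_mul]

theorem norm_sq {z : V → ℝ} (hz : SP z) : ∫ x in cube, z x ^ 2 = Q (fun _ => 1) z := by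
  unfold Q
  have h := (parseval hz hz).tsum_eq
  simp_rw [pr_self, ← sq] at h
  rw [← h]
  simp

theorem pol_kk : Pol kk := by
  have := pol_kn.pow 2
  simpa [kn_sq] using this

section local_term

variable {w : V → ℝ} {A b : ℝ}

/-- the symbol `2 π A |k| + b` -/
noncomputable def sy (A b : ℝ) (k : K3) : ℝ := 2 * Real.pi * A * kn k + b

theorem sy_pos (hA : 0 ≤ A) (hb : 0 < b) (k : K3) : 0 < sy A b k := by
  have := kn_nonneg k
  have := Real.pi_pos
  unfold sy
  positivity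

theorem pol_sy (A b : ℝ) : Pol (sy A b) := ((pol_const (2 * Real.pi * A)).mul pol_kn).add (pol_const b)

/-- the iteration `h ↦ B⁻¹ (w h)` -/
noncomputable def itr (w : V → ℝ) (A b : ℝ) (h : V → ℝ) : ℕ → V → ℝ
  | 0 => h
  | n + 1 => Mlt (fun k => (sy A b k)⁻¹) (fun x => w x * itr w A b h n x)

theorem lin_inv (hA : 0 ≤ A) (hb : 0 < b) : Lin (fun k => (sy A b k)⁻¹) := by
  refine lin_of_bdd (C := b⁻¹) (by positivity) fun k => ?_
  have h0 := sy_pos hA hb k
  rw [abs_of_pos (inv_pos.2 h0)]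
  refine inv_anti₀ hb ?_
  unfold sy
  have := kn_nonneg k
  have := Real.pi_pos
  have : 0 ≤ 2 * Real.pi * A * kn k := by positivity
  linarith

theorem sp_itr (hw : SP w) (hA : 0 ≤ A) (hb : 0 < b) {h : V → ℝ} (hh : SP h) (n : ℕ) :
    SP (itr w A b h n) := by
  induction n with
  | zero => exact hh
  | succ n ih => exact sp_Mlt (lin_inv hA hb) (hw.mul ih)

theorem fr_itr (hw : SP w) (hA : 0 ≤ A) (hb : 0 < b) {h : V → ℝ} (hh : SP h) (n : ℕ) (k : K3) :
    fr (fun x => w x * itr w A b h n x) k = sy A b k * fr (itr w A b h (n + 1)) k := by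
  have h1 := fr_Mlt (lin_inv hA hb) (fun k => by unfold sy; rw [kn_neg])
    (hw.mul (sp_itr hw hA hb hh n)) k
  have h2 : fr (itr w A b h (n + 1)) k
      = ((sy A b k)⁻¹ : ℝ) * fr (fun x => w x * itr w A b h n x) k := h1
  rw [h2]
  have h0 : (sy A b k : ℂ) ≠ 0 := by exact_mod_cast (sy_pos hA hb k).ne'
  push_cast
  field_simp

/-- `∫ w h h'` in terms of the next iterate of `h`. -/
theorem int_itr (hw : SP w) (hA : 0 ≤ A) (hb : 0 < b) {h h' : V → ℝ} (hh : SP h) (hh' : SP h')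
    (n : ℕ) : ∫ x in cube, w x * itr w A b h n x * h' x
      = ∑' k, sy A b k * pr (fr (itr w A b h (n + 1))) (fr h') k := by
  rw [← (parseval (hw.mul (sp_itr hw hA hb hh n)) hh').tsum_eq]
  refine tsum_congr fun k => ?_
  unfold pr
  rw [fr_itr hw hA hb hh n k, mul_assoc, Complex.re_ofReal_mul]

theorem local_bound (hw : SP w) (hA : 0 ≤ A) (hb : 0 < b)
    (hyp : ∀ z, SP z → ∫ x in cube, w x ^ 2 * z x ^ 2
      ≤ A ^ 2 * (∑ i, ∫ x in cube, pd i z x ^ 2) + b ^ 2 * ∫ x in cube, z x ^ 2)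
    {h h' : V → ℝ} (hh : SP h) (hh' : SP h') :
    |∫ x in cube, w x * h x * h' x| ≤ Real.sqrt (Q (sy A b) h) * Real.sqrt (Q (sy A b) h') := by
  have hs0 : ∀ k, 0 ≤ sy A b k := fun k => (sy_pos hA hb k).le
  have hpol := pol_sy A b
  set r : ℕ → ℝ := fun n => Q (sy A b) (itr w A b h n) with hr
  have hit : ∀ n, SP (itr w A b h n) := sp_itr hw hA hb hh
  have hr0 : ∀ n, 0 ≤ r n := fun n => Q_nonneg hs0 _
  -- boundedness
  have hpol2 : Pol (fun k => sy A b k ^ 2) := hpol.pow 2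
  have hstep : ∀ n, Q (fun k => sy A b k ^ 2) (itr w A b h (n + 1))
      ≤ Q (fun k => sy A b k ^ 2) (itr w A b h n) := by
    intro n
    have e1 : Q (fun k => sy A b k ^ 2) (itr w A b h (n + 1))
        = ∫ x in cube, w x ^ 2 * itr w A b h n x ^ 2 := by
      have h1 := norm_sq (hw.mul (hit n))
      have h2 : (∫ x in cube, w x ^ 2 * itr w A b h n x ^ 2)
          = ∫ x in cube, (w x * itr w A b h n x) ^ 2 := by
        congr 1
        funext x
        ring
      rw [h2, h1]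
      unfold Q
      refine tsum_congr fun k => ?_
      rw [fr_itr hw hA hb hh n k, norm_mul, Complex.norm_real, Real.norm_of_nonneg (hs0 k)]
      ring
    rw [e1]
    refine (hyp _ (hit n)).trans ?_
    rw [grad_sq (hit n), norm_sq (hit n)]
    have p1 : Pol (fun k => 4 * Real.pi ^ 2 * kk k) := (pol_const _).mul pol_kk
    have e2 : A ^ 2 * Q (fun k => 4 * Real.pi ^ 2 * kk k) (itr w A b h n)
        + b ^ 2 * Q (fun _ => 1) (itr w A b h n)
        = Q (fun k => A ^ 2 * (4 * Real.pi ^ 2 * kk k) + b ^ 2 * 1) (itr w A b h n) := by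
      unfold Q
      rw [← tsum_mul_left, ← tsum_mul_left, ← Summable.tsum_add]
      · exact tsum_congr fun k => by ring
      · exact (summable_Q p1 (hit n)).mul_left _
      · exact (summable_Q (pol_const 1) (hit n)).mul_left _
    rw [e2]
    refine Q_mono (((pol_const _).mul p1).add (pol_const _)) hpol2 (fun k => ?_) (hit n)
    rw [← kn_sq]
    unfold sy
    have := kn_nonneg k
    have := Real.pi_pos
    have : 0 ≤ Real.pi * A * kn k * b := by positivity
    nlinarith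
  have hbd : ∀ n, Q (fun k => sy A b k ^ 2) (itr w A b h n) ≤ Q (fun k => sy A b k ^ 2) h := by
    intro n
    induction n with
    | zero => exact le_rfl
    | succ n ih => exact (hstep n).trans ih
  have hrM : ∀ n, r n ≤ b⁻¹ * Q (fun k => sy A b k ^ 2) h := by
    intro n
    have h1 : r n ≤ Q (fun k => b⁻¹ * sy A b k ^ 2) (itr w A b h n) := by
      refine Q_mono hpol ((pol_const _).mul hpol2) (fun k => ?_) (hit n)
      have h2 : b ≤ sy A b k := by
        unfold sy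
        have := kn_nonneg k
        have := Real.pi_pos
        have : 0 ≤ 2 * Real.pi * A * kn k := by positivity
        linarith
      rw [inv_mul_eq_div, le_div_iff₀ hb, sq]
      exact mul_le_mul_of_nonneg_left h2 (hs0 k)
    refine h1.trans ?_
    have h3 : Q (fun k => b⁻¹ * sy A b k ^ 2) (itr w A b h n)
        = b⁻¹ * Q (fun k => sy A b k ^ 2) (itr w A b h n) := by
      unfold Q
      rw [← tsum_mul_left]
      exact tsum_congr fun k => by ring
    rw [h3]
    exact mul_le_mul_of_nonneg_left (hbd n) (by positivity)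
  -- log-convexity
  have hconv : ∀ n, r (n + 1) ^ 2 ≤ r n * r (n + 2) := by
    intro n
    have e1 : r (n + 1) = ∫ x in cube, w x * itr w A b h n x * itr w A b h (n + 1) x := by
      rw [int_itr hw hA hb hh (hit (n + 1)) n]
      simp only [hr, Q]
      refine tsum_congr fun k => ?_
      rw [pr_self]
    have e2 : (∫ x in cube, w x * itr w A b h n x * itr w A b h (n + 1) x)
        = ∫ x in cube, w x * itr w A b h (n + 1) x * itr w A b h n x := by
      congr 1
      funext x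
      ring
    rw [e2, int_itr hw hA hb hh (hit n) (n + 1)] at e1
    have h1 := abs_tsum_pr_le hpol hs0 (hit (n + 1 + 1)) (hit n)
    rw [← e1, abs_of_nonneg (hr0 (n + 1))] at h1
    calc r (n + 1) ^ 2 ≤ (Real.sqrt (r (n + 2)) * Real.sqrt (r n)) ^ 2 :=
          pow_le_pow_left₀ (hr0 _) h1 2
      _ = r n * r (n + 2) := by
          rw [mul_pow, Real.sq_sqrt (hr0 _), Real.sq_sqrt (hr0 _)]
          ring
  have hfin : r 1 ≤ r 0 := logconvex hr0 hconv hrM
  have e0 := int_itr hw hA hb hh hh' 0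
  have h1 := abs_tsum_pr_le hpol hs0 (hit 1) hh'
  have e3 : (∫ x in cube, w x * h x * h' x) = ∑' k, sy A b k * pr (fr (itr w A b h 1)) (fr h') k :=
    e0
  rw [e3]
  refine h1.trans ?_
  gcongr
  exact hfin

end local_term

end Pool.Agent.V1191.NS
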