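import Pool.Agent.W12.MD.RIESZ0

/-!
Fourier multipliers acting on smooth periodic functions and the pairing of Fourier coefficients.
-/

open MeasureTheory Set Filter Topology
open scoped ContDiff

namespace Pool.Agent.V1191.NS

open H459R3.NS Pool.Agent.W12.MD.R0

/-- the Euclidean length of a frequency -/
noncomputable def kn (k : K3) : ℝ := Real.sqrt (kk k)

theorem kk_nonneg (k : K3) : 0 ≤ kk k := Finset.sum_nonneg fun _ _ => sq_nonneg _

theorem kn_nonneg (k : K3) : 0 ≤ kn k := Real.sqrt_nonneg _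

theorem kn_sq (k : K3) : kn k ^ 2 = kk k := Real.sq_sqrt (kk_nonneg k)

theorem kn_neg (k : K3) : kn (-k) = kn k := by
  unfold kn kk
  simp

theorem kn_pos {k : K3} (hk : k ≠ 0) : 0 < kn k := Real.sqrt_pos.2 (kk_pos hk)

theorem kn_zero : kn 0 = 0 := by
  unfold kn kk
  simp

theorem abs_le_kn (k : K3) (j : Fin 3) : |(k j : ℝ)| ≤ kn k := by
  rw [← Real.sqrt_sq_eq_abs]
  refine Real.sqrt_le_sqrt ?_
  exact Finset.single_le_sum (f := fun l => (k l : ℝ) ^ 2) (fun _ _ => sq_nonneg _)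
      (Finset.mem_univ j)

theorem sq_le_kk (k : K3) (j : Fin 3) : (k j : ℝ) ^ 2 ≤ kk k :=
  Finset.single_le_sum (f := fun l => (k l : ℝ) ^ 2) (fun _ _ => sq_nonneg _)
      (Finset.mem_univ j)

theorem kk_le_N (k : K3) : kk k ≤ 3 * (N k : ℝ) ^ 2 := by
  have h : ∀ j ∈ (Finset.univ : Finset (Fin 3)), (k j : ℝ) ^ 2 ≤ (N k : ℝ) ^ 2 := by
    intro j _
    have := abs_le_N k j
    rw [Complex.norm_intCast] at this
    rw [← sq_abs]
    exact pow_le_pow_left₀ (abs_nonneg _) this 2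
  refine (Finset.sum_le_sum h).trans (le_of_eq ?_)
  simp

theorem kn_le_N (k : K3) : kn k ≤ 2 * N k := by
  have h := kk_le_N k
  have h2 : kn k ^ 2 ≤ (2 * N k) ^ 2 := by
    rw [kn_sq]
    nlinarith [sq_nonneg (N k : ℝ)]
  exact le_of_sq_le_sq h2 (by positivity)

/-- symbols of at most linear growth -/
def Lin (m : K3 → ℝ) : Prop := ∃ C : ℝ, 0 ≤ C ∧ ∀ k, |m k| ≤ C * (1 + N k)

theorem lin_kn : Lin kn := ⟨2, by norm_num, fun k => by
  rw [abs_of_nonneg (kn_nonneg k)]
  linarith [kn_le_N k]⟩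

theorem lin_of_bdd {m : K3 → ℝ} {C : ℝ} (hC : 0 ≤ C) (h : ∀ k, |m k| ≤ C) : Lin m :=
  ⟨C, hC, fun k => (h k).trans (by nlinarith [Nat.cast_nonneg (α := ℝ) (N k)])⟩

theorem rap_mul {m : K3 → ℝ} (hm : Lin m) {a : K3 → ℂ} (ha : Rap a) :
    Rap (fun k => (m k : ℂ) * a k) := by
  obtain ⟨C, hC, hm⟩ := hm
  intro n
  refine Summable.of_nonneg_of_le (fun k => by positivity) (fun k => ?_)
    (((ha n).add (ha (n + 1))).mul_left C)
  rw [norm_mul, Complex.norm_real, Real.norm_eq_abs]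
  calc (N k : ℝ) ^ n * (|m k| * ‖a k‖) ≤ (N k : ℝ) ^ n * (C * (1 + N k) * ‖a k‖) := by
        gcongr
        exact hm k
    _ = C * ((N k : ℝ) ^ n * ‖a k‖ + (N k : ℝ) ^ (n + 1) * ‖a k‖) := by ring

/-- the coefficients of a real function -/
def Herm (a : K3 → ℂ) : Prop := ∀ k, a (-k) = (starRingEnd ℂ) (a k)

theorem herm_fr (f : V → ℝ) : Herm (fr f) := by
  intro k
  unfold fr fc
  rw [← integral_conj]
  congr 1
  funext x
  rw [map_mul, Complex.conj_ofReal, neg_neg, ee_neg, Complex.conj_conj]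

theorem Herm.im {a : K3 → ℂ} (h : Herm a) (x : V) : (S a x).im = 0 := by
  have : (starRingEnd ℂ) (S a x) = S a x := by
    unfold S
    rw [Complex.conj_tsum, ← (Equiv.neg K3).tsum_eq]
    refine tsum_congr fun k => ?_
    simp only [Equiv.neg_apply, map_mul, h k, Complex.conj_conj]
    rw [ee_neg, Complex.conj_conj]
  exact Complex.conj_eq_iff_im.1 this

/-- the real function with given coefficients -/
noncomputable def Sr (a : K3 → ℂ) (x : V) : ℝ := (S a x).re

theorem sp_Sr {a : K3 → ℂ} (ha : Rap a) : SP (Sr a) where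
  smooth := Complex.reCLM.contDiff.comp (S_smooth' ha)
  per := fun i x => by unfold Sr; rw [S_per a i x]

theorem Sr_cast {a : K3 → ℂ} (h : Herm a) (x : V) : ((Sr a x : ℝ) : ℂ) = S a x := by
  unfold Sr
  apply Complex.ext
  · simp
  · simp [h.im x]

theorem fr_Sr {a : K3 → ℂ} (ha : Rap a) (h : Herm a) : fr (Sr a) = a := by
  funext k
  unfold fr fc
  simp_rw [Sr_cast h]
  rw [integral_ee_S _ ha.summable, neg_neg]

theorem sp_ext {f g : V → ℝ} (hf : SP f) (hg : SP g) (h : ∀ k, fr f k = fr g k) : f = g := by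
  funext x
  have h1 := S_fr hf x
  rw [show fr f = fr g from funext h, S_fr hg x] at h1
  exact_mod_cast h1.symm

/-- the Fourier multiplier with real symbol `m` -/
noncomputable def Mlt (m : K3 → ℝ) (f : V → ℝ) : V → ℝ := Sr (fun k => (m k : ℂ) * fr f k)

theorem sp_Mlt {m : K3 → ℝ} (hm : Lin m) {f : V → ℝ} (hf : SP f) : SP (Mlt m f) :=
  sp_Sr (rap_mul hm (rap_fr hf))

theorem fr_Mlt {m : K3 → ℝ} (hm : Lin m) (he : ∀ k, m (-k) = m k) {f : V → ℝ} (hf : SP f)
    (k : K3) : fr (Mlt m f) k = m k * fr f k := by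
  have hH : Herm (fun k => (m k : ℂ) * fr f k) := by
    intro k
    simp only [map_mul, Complex.conj_ofReal, he k, herm_fr f k]
  unfold Mlt
  rw [fr_Sr (rap_mul hm (rap_fr hf)) hH]

/-- the pairing of coefficients -/
noncomputable def pr (a b : K3 → ℂ) (k : K3) : ℝ := (a k * (starRingEnd ℂ) (b k)).re

theorem abs_pr_le (a b : K3 → ℂ) (k : K3) : |pr a b k| ≤ ‖a k‖ * ‖b k‖ := by
  unfold pr
  refine (Complex.abs_re_le_norm _).trans (le_of_eq ?_)
  rw [norm_mul, RCLike.norm_conj]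

theorem pr_self (a : K3 → ℂ) (k : K3) : pr a a k = ‖a k‖ ^ 2 := by
  unfold pr
  rw [Complex.mul_conj, Complex.normSq_eq_norm_sq]
  norm_cast

theorem pr_comm (a b : K3 → ℂ) (k : K3) : pr a b k = pr b a k := by
  unfold pr
  rw [← Complex.conj_re, map_mul, Complex.conj_conj, mul_comm]

theorem parseval {f g : V → ℝ} (hf : SP f) (hg : SP g) :
    HasSum (pr (fr f) (fr g)) (∫ x in cube, f x * g x) := by
  have h := integral_S_mul (rap_fr hf).summable (g := fun x => (g x : ℂ))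
    (Complex.continuous_ofReal.comp hg.cont)
  have e2 : (∫ x in cube, S (fr f) x * (g x : ℂ)) = ((∫ x in cube, f x * g x : ℝ) : ℂ) := by
    rw [← integral_complex_ofReal]
    congr 1
    funext x
    rw [S_fr hf]
    push_cast
    ring
  rw [e2] at h
  have h2 := Complex.hasSum_re h
  rw [Complex.ofReal_re] at h2
  refine h2.congr_fun ?_ |> fun h => h
  intro k
  unfold pr
  congr 2
  rw [← herm_fr g k]
  unfold fr fc
  rw [neg_neg]

end Pool.Agent.V1191.NS
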